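import Pool.Agent.helper36.YB.Defs

/-!
# Project yb (MP_ad8ced_nt: almost all primes `p`), block Y: the Hecke characters of `ℤ[√8]` modulo `q`

RULES.  File `Pool/Agent/<seat>/YB/XXX.lean`, `import Pool.Agent.helper36.YB.Spec`, `namespace Pool.Agent.YB`, the `open` lines of this file,
`theorem XXX (h1 : YY_stmt) ... : XXX_stmt`, auxiliary lemmas prefixed `XXX_` (private where possible).  Never change this file.  If a statement is wrong tell helper36 at once.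
No `convert` / `congr!`, no `native_decide`, no straight double quotes.  Other statements may be used as hypotheses only; the hypotheses named in the lock note are enough.
MOST ROWS ARE PORTS of a proved row of the projects FI, HK, BP, CH (files named in the docstrings; the statements FDE THU SIZ FFC .. are in Pool/Agent/helper95/FI/SpecA.lean, MUL RSP TRI TFO VAR .. in Pool/Agent/helper36/HK/Spec.lean, CHB SMB .. in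
Pool/Agent/helper36/BP/SpecE.lean, RDB FZB .. in SpecR.lean, GPP GFM MUE .. in SpecD.lean): copy the file and change what is said.

Elements are pairs `z = (a, l) ↔ a + l √8`.  `q` is even.  `Ψ = HX ξ i₁ i κ` is a character of the odd elements modulo units if `XInv ξ i₁ κ`.  On `FF y` the sign `s1` is `1`.  `L = log x`.
`rf f n = ∑_{z ∈ FF n, nn z = n} f z`, so `∑_{n ≤ u} rf f n nit t n = ∑_{z ∈ FF u} f z nit t (nn z)` (`SRF_stmt`).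
-/

set_option autoImplicit false

open Finset
open Pool.Agent.FI Pool.Agent.HK Pool.Agent.BP
open Pool.Agent.CH (nit rgh ll2)
open Pool.Agent.SK (tr0 Th)

noncomputable section

namespace Pool.Agent.YB

/-! ## A. Characters -/

/-- **UXH** (medium; copy of Pool/Agent/helper54/HK/UCH.lean).  `s1` is multiplicative: `(zw).1 + (zw).2 √8 = (z.1 + z.2 √8)(w.1 + w.2 √8)`, nonzero for odd elements.  The rest as there; the units `(3,1)`, `(-1,0)` by `XInv` (`s1 (3,1) = 1`, `s1 (-1,0) = -1`). -/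
def UXH_stmt : Prop := ∀ (q : ℕ) (ξ : ℤ × ℤ → ℂ) (i₁ i : ℕ) (κ : ℝ), IsX q ξ → XInv ξ i₁ κ → UX q (HX ξ i₁ i κ)

open scoped Classical in
/-- **MLX** (short; copy of Pool/Agent/helper72/HK/MUL.lean, which uses only the two properties in `MU`).  From FDE, FDU. -/
def MLX_stmt : Prop := ∀ Ψ : ℤ × ℤ → ℂ, MU Ψ → ∀ w : ℤ × ℤ, w.1 % 2 = 1 → ∀ m : ℕ, 1 ≤ m →
  ∑ z ∈ FF (m * nn w) with (nn z = m * nn w ∧ Dv w z), Ψ z = Ψ w * rf Ψ m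

/-- **RSX** (short, medium; copy of Pool/Agent/helper40/HK/RSP.lean).  From MLX, SIZ.  The elements `z ∈ Fd` of norm `pm` are divisible by `π` or by `cj π`, by both iff by `(p,0)`: inclusion-exclusion, MLX with `w = π, cj π, (p,0)`. -/
def RSX_stmt : Prop := ∀ Ψ : ℤ × ℤ → ℂ, MU Ψ → ∀ (p : ℕ) (π : ℤ × ℤ), p.Prime → p ≠ 2 → nn π = p → ∀ m : ℕ, 1 ≤ m →
  rf Ψ (p * m) = (Ψ π + Ψ (cj π)) * rf Ψ m - (if p ∣ m then Ψ ((p : ℤ), 0) * rf Ψ (m / p) else 0)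

/-- **RIX** (short; copy of Pool/Agent/helper30/HK/RIN.lean).  From MLX, SIZ.  `UX q Ψ` implies `MU Ψ`. -/
def RIX_stmt : Prop := ∀ (q : ℕ) (Ψ : ℤ × ℤ → ℂ), UX q Ψ → rf Ψ 1 = 1 ∧ ∀ p m : ℕ, p.Prime → 1 ≤ m →
  ((p = 2 ∨ p ∣ q) → rf Ψ (p * m) = 0) ∧
  (p % 8 = 3 ∨ p % 8 = 5 → rf Ψ (p * m) = if p ∣ m then Ψ ((p : ℤ), 0) * rf Ψ (m / p) else 0)

/-- **TRX** (medium; copy of Pool/Agent/helper98/HK/TRI.lean).  From RSX, RIX, CVR, CME, THU.  Values at `p`: split (`p ≡ ±1 mod 8`, `p ∤ q`, `nn π = p` by THU): `k = (1,1)`, `g = (Ψ π, Ψ (cj π))`, `h = (Ψ π conj Ψ(cj π), Ψ(cj π) conj Ψ π)`; `g₁ g₂ = Ψ (N8 π, 0) = Ψ (p,0)` (`Ψ (-1,0) = 1`).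
Inert, `p ∤ q`: `k = (1,-1)`, `g = (s,-s)` with `s² = Ψ (p,0)`, `‖s‖ = 1` (`nn (p,0) = p²`), `h = (1,-1)`; `p ∣ q`: `0`.  `UX q (I1 q)` and `UX q (cc2 Ψ)` hold (`cc2 Ψ (p,0) = ‖Ψ (p,0)‖² = 1`).  Both sides satisfy the same recursion (RSX, RIX; CVR) and are `1` at `1`. -/
def TRX_stmt : Prop := ∀ (q : ℕ) (Ψ : ℤ × ℤ → ℂ), 2 ∣ q → UX q Ψ → ∃ k₁ k₂ g₁ g₂ h₁ h₂ : ℕ → ℂ,
  CM k₁ ∧ CM k₂ ∧ CM g₁ ∧ CM g₂ ∧ CM h₁ ∧ CM h₂ ∧ TriX k₁ k₂ g₁ g₂ h₁ h₂ ∧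
  (∀ p : ℕ, p.Prime → ‖k₁ p + k₂ p‖ ≤ if p % 8 = 1 ∨ p % 8 = 7 then 2 else 0) ∧
  ∀ n : ℕ, 1 ≤ n → rf (I1 q) n = cv k₁ k₂ n ∧ rf Ψ n = cv g₁ g₂ n ∧ rf (cc2 Ψ) n = cv h₁ h₂ n

/-- **GPX** (short, medium; copy of Pool/Agent/helper72/BP/GPP.lean).  From RSX, RIX, THU.  `g p h p = (F p)² - F (p²)` with `F = rf Ψ`; split: `Ψ (p,0)`, inert: `-Ψ (p,0)`, `p ∣ q`: `0`. -/
def GPX_stmt : Prop := ∀ (q : ℕ) (Ψ : ℤ × ℤ → ℂ), 2 ∣ q → UX q Ψ → ∀ g h : ℕ → ℂ, CM g → CM h →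
  (∀ n : ℕ, 1 ≤ n → rf Ψ n = cv g h n) → ∀ p : ℕ, p.Prime → g p * h p = if p ∣ q then 0 else ((ch8 p : ℝ) : ℂ) * Ψ ((p : ℤ), 0)

/-- **MUX** (medium; copy of Pool/Agent/helper9/BP/MUE.lean).  From GPX, GFM (of BP), SIZ.  For squarefree `b`: `g b h b = ch8 b Ψ (b,0)` if `gcd(b,q) = 1` and `0` otherwise (`Ψ` is multiplicative on the odd integers; even `b`: both sides `0`), and `Ψ z = Ψ (b,0) Ψ z₀` for `z = b z₀`. -/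
def MUX_stmt : Prop := ∀ (q : ℕ) (Ψ : ℤ × ℤ → ℂ), 2 ∣ q → UX q Ψ → ∀ g h : ℕ → ℂ, CM g → CM h →
  (∀ n : ℕ, 1 ≤ n → rf Ψ n = cv g h n) → ∀ n : ℕ, 1 ≤ n → rf (fun z => (mue z : ℂ) * Ψ z) n = cv (mg g) (mg h) n

/-- the first factor of the principal character -/
def e1 (q n : ℕ) : ℂ := if Nat.Coprime n q then 1 else 0

/-- the second factor of the principal character -/
def e8 (q n : ℕ) : ℂ := if Nat.Coprime n q then c8 n else 0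

/-- **RPX** (short, medium; as the induction in Pool/Agent/helper98/HK/TRI.lean).  From RSX, RIX, CVR, THU. -/
def RPX_stmt : Prop := ∀ q : ℕ, 2 ∣ q → 0 < q → UX q (I1 q) ∧ CM (e1 q) ∧ CM (e8 q) ∧ ∀ n : ℕ, 1 ≤ n → rf (I1 q) n = cv (e1 q) (e8 q) n

open scoped Classical in
/-- **GRX** (medium; orthogonality; simpler than Pool/Agent/helper32/FI/GRP.lean, from which the ring and the characters can be copied).  The unit group of the finite commutative ring `ℤ[√8]/q` (`z` is a unit iff `gcd(nn z, q) = 1`), all its characters (`AddChar (Additive G) ℂ` or `MulChar`), extended by `0`; `k` is the order of the group. -/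
def GRX_stmt : Prop := ∀ q : ℕ, 2 ∣ q → 0 < q → ∃ (k : ℕ) (ψ : Fin k → ℤ × ℤ → ℂ), 0 < k ∧ k ≤ q ^ 2 ∧ (∀ i, IsX q (ψ i)) ∧
  ∀ z c : ℤ × ℤ, Nat.Coprime (nn z) q → Nat.Coprime (nn c) q →
    ∑ i, ψ i z * (starRingEnd ℂ) (ψ i c) = if (q : ℤ) ∣ z.1 - c.1 ∧ (q : ℤ) ∣ z.2 - c.2 then (k : ℂ) else 0

/-! ## R. The 3-4-1 argument -/

/-- **TFX** (medium; copy of Pool/Agent/helper49/HK/TFO.lean).  The height `t` only in the second factor.  With `S = z₁ + z₂`, `z_i = g_i(p)^n p^(-int)`, `|z_i| = 1`, the `n`-th term at a split prime is `p^(-n(1+x))/n` times `6 + 4 Re S + 2 Re (z₁ conj z₂) = |S|² + 4 Re S + 4 ≥ |S|² - 4|S| + 4 ≥ 0` (`|S|² = 2 + 2 Re (z₁ conj z₂)`; `h₁ + h₂`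
contributes `2 Re (z₁ conj z₂)`, real, independent of `t`); at an inert prime `-log(1-w) - log(1+w) = -log(1-w²)`: `4 + 4 Re z ≥ 0`.  (Either with the power series of `-log(1-w)` termwise, or directly for `-log (1-w)`.) -/
def TFX_stmt : Prop := ∀ k₁ k₂ g₁ g₂ h₁ h₂ : ℕ → ℂ, CM k₁ → CM k₂ → CM g₁ → CM g₂ → CM h₁ → CM h₂ →
  TriX k₁ k₂ g₁ g₂ h₁ h₂ → ∀ x t : ℝ, 0 < x →
  1 ≤ ‖DF (cv k₁ k₂) 0 (1 + (x : ℂ))‖ ^ 3 * ‖DF (cv g₁ g₂) 0 (1 + (x : ℂ) + Complex.I * t)‖ ^ 4 *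
    ‖DF (cv h₁ h₂) 0 (1 + (x : ℂ))‖

/-- **RLX** (medium; copy of Pool/Agent/helper8/BP/RLB.lean).  From TFX, RDB, FZB (of BP).  The only change: `|F₂| = |DF (cv (rg h₁) (rg h₂)) 0 σ| ≤ C ℓ²` by RDB with `R = 0`, `τ = 0`. -/
def RLX_stmt : Prop := ∃ (A₁ : ℕ) (c x₀ : ℝ), 0 < c ∧ ∀ x : ℝ, x₀ ≤ x → ∀ (R : ℝ) (k₁ k₂ g₁ g₂ h₁ h₂ : ℕ → ℂ),
  DtX x A₁ R k₁ k₂ g₁ g₂ h₁ h₂ → ∀ σ τ : ℝ, 1 + 1 / Real.log x ≤ σ → σ ≤ 2 → |τ| ≤ R →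
  c / ll2 x ^ 11 ≤ ‖DF (cv (rg (yx x) g₁) (rg (yx x) g₂)) 0 ((σ : ℂ) + τ * Complex.I)‖

/-- **RMX** (short; copy of Pool/Agent/helper29/BP/RMB.lean with `DtX`, RLX instead of `DtR`, RLB).  From RDB (of BP), RLX. -/
def RMX_stmt : Prop := ∀ J : ℕ, ∃ (A₁ E : ℕ) (x₀ : ℝ), ∀ x : ℝ, x₀ ≤ x → ∀ (R : ℝ) (k₁ k₂ g₁ g₂ h₁ h₂ : ℕ → ℂ),
  DtX x A₁ R k₁ k₂ g₁ g₂ h₁ h₂ → ∀ σ τ : ℝ, 1 + 1 / Real.log x ≤ σ → σ ≤ 2 → |τ| ≤ R → ∀ j ≤ J,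
  ‖DF (cv (mg (rg (yx x) g₁)) (mg (rg (yx x) g₂))) j ((σ : ℂ) + τ * Complex.I)‖ ≤ CH.dl x ^ j * ll2 x ^ E

/-- **MBX** (short; copy of Pool/Agent/helper82/BP/MMB.lean with `DtX`, RMX).  From RMX, HSF (of BP). -/
def MBX_stmt : Prop := ∀ J : ℕ, ∃ (A₁ : ℕ) (x₀ : ℝ), ∀ x : ℝ, x₀ ≤ x → ∀ (R : ℝ) (k₁ k₂ g₁ g₂ h₁ h₂ : ℕ → ℂ),
  DtX x A₁ R k₁ k₂ g₁ g₂ h₁ h₂ → ∀ σ τ : ℝ, 1 + 1 / Real.log x ≤ σ → σ ≤ 2 → |τ| ≤ R → ∀ j ≤ J,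
  ‖DF (cv (mg g₁) (mg g₂)) j ((σ : ℂ) + τ * Complex.I)‖ ≤ CH.dl x ^ (j + 8)

/-- **VGX** (short; copy of Pool/Agent/helper72/BP/VMG.lean with `DtX`, MBX).  From MBX, FSB (of BP). -/
def VGX_stmt : Prop := ∀ A : ℕ, ∃ (A₁ : ℕ) (x₀ : ℝ), ∀ x : ℝ, x₀ ≤ x → ∀ (R : ℝ) (k₁ k₂ g₁ g₂ h₁ h₂ : ℕ → ℂ),
  DtX x A₁ (R + Real.log x ^ A₁) k₁ k₂ g₁ g₂ h₁ h₂ → ∀ t : ℝ, |t| ≤ R →
  ‖∑ n ∈ Ioc 0 ⌊x⌋₊, cv (mg g₁) (mg g₂) n * nit t n‖ ≤ x / Real.log x ^ A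

/-! ## H. The sums over all elements -/

/-- **CHX** (medium; copy of Pool/Agent/helper39/BP/CHB.lean: large height).  From RWB, SCW (of BP).  An arbitrary function `χ` periodic modulo `q`, `|χ| ≤ 1`, `q` of any parity: the period of the rows is `D = 2q` (the elements of `FF` are odd), `N = ⌊n/(20q)⌋`; there the character `ψ z (-1)^(jl)` had the period `D = 2d`. -/
def CHX_stmt : Prop := ∀ A B K : ℕ, ∃ x₀ : ℝ, ∀ x : ℝ, x₀ ≤ x → ∀ q : ℕ, 0 < q → (q : ℝ) ≤ Real.log x ^ B →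
  ∀ χ : ℤ × ℤ → ℂ, (∀ z, ‖χ z‖ ≤ 1) → (∀ z w : ℤ × ℤ, (q : ℤ) ∣ z.1 - w.1 → (q : ℤ) ∣ z.2 - w.2 → χ z = χ w) →
  ∀ i : ℕ, ∀ κ τ : ℝ, |κ| ≤ x ^ K → |τ| ≤ x ^ K →
  ∀ v : ℕ, Real.exp (CH.dl x) ≤ v → (v : ℝ) ^ (1 / 4 : ℝ) ≤ max |κ + τ| |τ - κ| →
  ‖∑ z ∈ FF v, χ z * (((N8 z).sign : ℂ) ^ i * Complex.exp (κ * yy z * Complex.I)) * nit τ (nn z)‖ ≤ v / Real.log x ^ A

/-- **SMX** (short, medium; copy of Pool/Agent/helper30/BP/SMA.lean).  From VAR (of HK), VTT (of BP), SIZ.  `χ` vanishes on the elements with even first coordinate, so the sum is `∑_{z ∈ Bx (2y)} χ z * Fyt i κ τ y z`; VAR with `D = q`. -/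
def SMX_stmt : Prop := ∃ C : ℝ, 0 < C ∧ ∀ q : ℕ, 0 < q → ∀ χ : ℤ × ℤ → ℂ, (∀ z, ‖χ z‖ ≤ 1) →
  (∀ z w : ℤ × ℤ, (q : ℤ) ∣ z.1 - w.1 → (q : ℤ) ∣ z.2 - w.2 → χ z = χ w) → (∀ z : ℤ × ℤ, z.1 % 2 = 0 → χ z = 0) →
  ∑ v ∈ range q ×ˢ range q, χ ((v.1 : ℤ), (v.2 : ℤ)) = 0 → ∀ (i : ℕ) (κ τ : ℝ) (y : ℕ),
  ‖∑ z ∈ FF y, χ z * (((N8 z).sign : ℂ) ^ i * Complex.exp (κ * yy z * Complex.I)) * nit τ (nn z)‖ ≤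
    C * (q : ℝ) ^ 3 * (1 + |κ| + |τ| * (1 + Real.log y)) * √(y : ℝ)

/-- **MZX** (short; end of Pool/Agent/helper64/HK/PNP.lean).  `w` with `ξ w ≠ 1`, `gcd(nn w, q) = 1`: `z ↦ w z` is a bijection modulo `q` (multiply by `cj w`), `ξ (w z) = ξ w ξ z`. -/
def MZX_stmt : Prop := ∀ (q : ℕ) (ξ : ℤ × ℤ → ℂ), IsX q ξ → NPr q ξ → ∑ v ∈ range q ×ˢ range q, ξ ((v.1 : ℤ), (v.2 : ℤ)) = 0

/-- **CTX** (medium; as Pool/Agent/helper89/BP/CHT.lean).  From CHX, SMX, MZX, `BP.SMB_stmt`.  `s1 = 1` on `FF v`.  `v^(1/4) ≤ max |κ+τ| |τ-κ|`: CHX.  Otherwise `|κ|, |τ| ≤ v^(1/4)`; `NPr`: SMX (`ξ` vanishes on even elements: `nn z` even) with MZX.  Not `NPr`, `κ ≠ 0`: `ξ z = 1` if `gcd(nn z, q) = 1` and `0` otherwise; `q = 2^a d`, `d` odd: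
for odd `z` `ξ z = ψ z` with the principal character `ψ z = [gcd(nn z, d) = 1]` (`IsRC d ψ`), `UInv ψ 0 κ` by `XInv`; `BP.SMB_stmt`.  `C L^(3B) 3 (2 + log v) v^(3/4) ≤ v/L^A` for `v ≥ exp(dl x)`, `x` large. -/
def CTX_stmt : Prop := ∀ A B K : ℕ, ∃ x₀ : ℝ, ∀ x : ℝ, x₀ ≤ x → ∀ q : ℕ, (q : ℝ) ≤ Real.log x ^ B →
  ∀ ξ : ℤ × ℤ → ℂ, IsX q ξ → ∀ i₁ i : ℕ, ∀ κ τ : ℝ, XInv ξ i₁ κ → NPr q ξ ∨ κ ≠ 0 → |κ| ≤ x ^ K → |τ| ≤ x ^ K →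
  ∀ v : ℕ, Real.exp (CH.dl x) ≤ v → ‖∑ z ∈ FF v, HX ξ i₁ i κ z * nit τ (nn z)‖ ≤ v / Real.log x ^ A

/-! ## D. The self-conjugate characters (Dirichlet characters) -/

/-- **HLB** (medium; Hilbert 90 modulo `q`).  `16 q ∣ N8 z - 1`.  `ξ (3,1) = 1`, `ξ (-1,0) = 1` (`XInv ξ 0 0`).  Replace `z` by `z (3,1)` if `z.2` is odd (the second coordinate becomes `z.1 + 3 z.2`, even; `z.1` is odd); then `z.1² ≡ 1 + 8 z.2² ≡ 1 mod 32`, so `z.1 ≡ ±1 mod 16`; replace `z` by `-z` so that `z.1 ≡ 1 mod 16`.  The norm and `ξ z` do not change.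
Let `P₂` be the product of the odd primes `p ∣ q` with `z.1 ≡ -1 mod p`, `P₁` the product of the other odd primes `p ∣ q`; by the Chinese remainder theorem there is `u = (u₁, u₂)` with `u₁ ≡ 1`, `u₂ ≡ 0 mod 16 P₁` and `u₁ ≡ 0`, `u₂ ≡ 1 mod P₂`.  `2ζ = u + z (cj u) = (u₁(1 + z.1) - 8 z.2 u₂, z.2 u₁ + u₂ (1 - z.1))` has even coordinates, and
`ζ.1 = u₁ (1+z.1)/2 - 4 z.2 u₂` is odd.  For an odd prime `p ∣ q`: `4 N8 ζ ≡ 2 N8 u + trace(z (cj u)²) mod p`, which is `2 + 2 z.1` for `p ∣ P₁` and `-16 + 16 z.1 ≡ -32` for `p ∣ P₂`: nonzero.  So `gcd(nn ζ, q) = 1`.  `2(ζ - z (cj ζ)) = (1 - N8 z) u`, so `ζ ≡ z (cj ζ) mod 8q`, and `ξ ζ = ξ z ξ (cj ζ) = ξ z ξ ζ` (`SCj`), `ξ ζ ≠ 0`. -/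
def HLB_stmt : Prop := ∀ (q : ℕ) (ξ : ℤ × ℤ → ℂ), IsX q ξ → XInv ξ 0 0 → SCj q ξ 0 0 → ∀ z : ℤ × ℤ, Nat.Coprime (nn z) q →
  ((16 * q : ℕ) : ℤ) ∣ N8 z - 1 → ξ z = 1

/-- **FNC** (short, medium).  From HLB, SIZ.  If `gcd(nn z, q) = gcd(nn w, q) = 1` and `N8 z ≡ N8 w mod 16q` then `ξ z = ξ w`: let `t N8 w ≡ 1 mod 16q` and `w' = t (cj w)`: `w w' ≡ (1,0)`, so `ξ w ξ w' = ξ (1,0) = 1`, and `N8 (z w') ≡ 1`, so `ξ z ξ w' = 1` by HLB.  On `Fd` the norm `N8 z = ± nn z` is determined by `nn z` (SIZ: `+` iff `nn z ≡ 1 mod 8`).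
`F n` = the common value of `HX ξ 0 i 0 z` for the `z ∈ Fd` with `nn z ≡ n mod 16q` if there is one and `gcd(n,q) = 1`, and `0` otherwise. -/
def FNC_stmt : Prop := ∀ (q : ℕ) (ξ : ℤ × ℤ → ℂ) (i : ℕ), IsX q ξ → XInv ξ 0 0 → SCj q ξ 0 0 → ∃ F : ℕ → ℂ,
  (∀ n, F (n + 16 * q) = F n) ∧ (∀ n, ‖F n‖ ≤ 1) ∧ (∀ n, ¬ Nat.Coprime n q → F n = 0) ∧ ∀ z : ℤ × ℤ, Fd z → HX ξ 0 i 0 z = F (nn z)

/-- **MWI** (medium; from primes to the Moebius function, elementary).  `L = log x`, `Y₀ = ⌈exp(√L)⌉`, `M(u) = ∑_{n ≤ u} mg a n`, `G(y) = ∑_{b ≤ y} (Λ(b) - c) a(b)`, `|G(y)| ≤ y/L^(A+2)` for `Y₀ ≤ y ≤ x`.  Claim `P_k`: `|M(u)| ≤ D_k u` for `√x (2Y₀)^k ≤ u ≤ x`; `D_0 = 1`.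
`M(u) log u = ∑ mg a n log (u/n) + ∑ mg a n log n`.  The first sum is `∫_1^u M(v)/v dv`, at most `D_k u + √x (2Y₀)^k ≤ D_k u + u/Y₀` for `u ≥ √x (2Y₀)^(k+1)`.  `μ log = -μ * Λ` (and `mg a * a` is the unit): the second sum is `-c - ∑_{n m ≤ u} mg a n (Λ(m) - c) a(m)`.  The `m ≤ Y₀`: `∑_m (Λ(m) + 1) |M(⌊u/m⌋)| ≤ D_k u ∑_{m ≤ Y₀} (Λ(m) + 1)/m ≤ C D_k u √L`
(`⌊u/m⌋ ≥ √x (2Y₀)^k`).  The `m > Y₀`: `∑_{n < u/Y₀} |G(⌊u/n⌋) - G(Y₀)| ≤ ∑ 2 (u/n)/L^(A+2) ≤ 2u (L+1)/L^(A+2)`.  As `log u ≥ L/2`: `D_(k+1) = C D_k/√L + 5/L^(A+2) + C/(L Y₀)`.  `k = 2A + 1` steps give `|M(u)| ≤ u/L^A` for `u ≥ x/L^A`; for smaller `u` `|M(u)| ≤ u`. -/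
def MWI_stmt : Prop := ∀ A : ℕ, ∃ x₀ : ℝ, ∀ x : ℝ, x₀ ≤ x → ∀ (a : ℕ → ℂ) (c : ℝ), CM a → 0 ≤ c → c ≤ 1 →
  (∀ y : ℕ, Real.exp (√(Real.log x)) ≤ y → (y : ℝ) ≤ x →
    ‖∑ n ∈ Ioc 0 y, ((ArithmeticFunction.vonMangoldt n : ℂ) - c) * a n‖ ≤ y / Real.log x ^ (A + 2)) →
  ∀ u : ℕ, (u : ℝ) ≤ x → ‖∑ n ∈ Ioc 0 u, mg a n‖ ≤ x / Real.log x ^ A

/-- **MUW** (medium; Siegel-Walfisz for the Moebius function).  From MWI and the PROVED theorems `psi_char`, `psi_pnt` of `Pool.Agent.helper74.TG` (import Pool.Agent.helper74.TG.SW; do NOT import TG.Spec).  `χ ≠ 1` (`q ≥ 2`): MWI with `c = 0`, `a n = χ n` for `n ≥ 1`, `a 0 = 0`; `psi_char` at the point `y ≥ exp(√L)` with the exponents `2A + 6`, `2B + 1`.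
`q = 1`: MWI with `c = 1`, `psi_pnt`.  `χ = 1`, `q > 1`: `∑_{n ≤ u, (n,q) = 1} μ(n) = ∑_{m ∣ q^∞} M(⌊u/m⌋)` (`M` for `q = 1`): `m ≤ √x`: `|M(⌊u/m⌋)| ≤ (x/m)/(log (x/m))^(A+B+2)`, `∑_{m ∣ q^∞} 1/m = q/φ(q) ≤ q`; `m > √x`: `∑_{m ∣ q^∞, m > √x} x/m ≤ x x^(-1/4) ∏_{p ∣ q} (1 - p^(-1/2))^(-1) ≤ x^(3/4) q²`. -/
def MUW_stmt : Prop := ∀ A B : ℕ, ∃ x₀ : ℝ, ∀ x : ℝ, x₀ ≤ x → ∀ q : ℕ, 1 ≤ q → (q : ℝ) ≤ Real.log x ^ B → ∀ χ : DirichletCharacter ℂ q,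
  ∀ u : ℕ, (u : ℝ) ≤ x → ‖∑ n ∈ Ioc 0 u, mg (fun n => χ (n : ZMod q)) n‖ ≤ x / Real.log x ^ A

/-- **MUT** (short, medium).  From `CH.VP_stmt`, MUW.  `B₁` from VP.  `|t| ≥ L^(B₁)`: VP.  Otherwise Abel summation with MUW, exponent `A + B₁ + 3`: `|M(x) x^(it)| + |t| ∫_1^x |M(v)|/v dv ≤ (1 + L^(B₁) L) x/L^(A+B₁+3)` (or discrete: `‖nit t n - nit t (n+1)‖ ≤ |t|/n`). -/
def MUT_stmt : Prop := ∀ A B K : ℕ, ∃ x₀ : ℝ, ∀ x : ℝ, x₀ ≤ x → ∀ q : ℕ, 1 ≤ q → (q : ℝ) ≤ Real.log x ^ B → ∀ χ : DirichletCharacter ℂ q,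
  ∀ t : ℝ, |t| ≤ x ^ K → ‖∑ n ∈ Ioc 0 ⌊x⌋₊, mg (fun n => χ (n : ZMod q)) n * nit t n‖ ≤ x / Real.log x ^ A

/-- **MDD** (medium; hyperbola method).  From MUT.  `χ' n = c8 n * χ n` is a Dirichlet character modulo `8q` (`changeLevel`, `ZMod.χ₈` composed with `ℤ → ℂ`).  `P(y) = ∑_{n ≤ y} μ χ nit t`, `Q(y)` with `χ'`: both are at most `y/L^(A+3)` for `√x ≤ y ≤ x` (MUT at the point `y`: `|t| ≤ x^K ≤ y^(2K+1)`, exponents `A + 4`, `B + 2`).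
The sum is `∑_{a ≤ √x} .. Q(x/a) + ∑_{b ≤ √x} .. P(x/b) - P(√x) Q(√x)`. -/
def MDD_stmt : Prop := ∀ A B K : ℕ, ∃ x₀ : ℝ, ∀ x : ℝ, x₀ ≤ x → ∀ q : ℕ, 1 ≤ q → (q : ℝ) ≤ Real.log x ^ B → ∀ χ : DirichletCharacter ℂ q,
  ∀ t : ℝ, |t| ≤ x ^ K →
  ‖∑ n ∈ Ioc 0 ⌊x⌋₊, cv (mg (fun n => χ (n : ZMod q))) (mg (fun n => c8 n * χ (n : ZMod q))) n * nit t n‖ ≤ x / Real.log x ^ A

/-- **MDI** (medium).  From FNC, MDD, MUX, RPX, SRF, SIZ.  `F` from FNC.  The sum is `∑_{n ≤ x} F(n) rf (mue) n nit t n`, and for `gcd(n,q) = 1` `rf (mue) n = rf (mue I1 q) n = cv (mg (e1 q)) (mg (e8 q)) n` (MUX, RPX).  `Q = 16q`: `F n = ∑_χ c_χ χ(n)` over the Dirichlet characters modulo `Q` (both sides vanish if `gcd(n,Q) ≠ 1`, same as `gcd(n,q) ≠ 1`),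
`c_χ = φ(Q)⁻¹ ∑_b F(b) conj χ(b)`, `|c_χ| ≤ 1` (`DirichletCharacter.sum_char_inv_mul_char_eq`), at most `16q` characters; `χ(n) cv (mg (e1 q)) (mg (e8 q)) n = cv (mg χ) (mg (c8 χ)) n`.  MDD with exponents `A + B + 1`, `B + 1`. -/
def MDI_stmt : Prop := ∀ A B K : ℕ, ∃ x₀ : ℕ, ∀ x : ℕ, x₀ ≤ x → ∀ q : ℕ, (q : ℝ) ≤ Real.log x ^ B →
  ∀ ξ : ℤ × ℤ → ℂ, IsX q ξ → ∀ i : ℕ, ∀ t : ℝ, XInv ξ 0 0 → SCj q ξ 0 0 → |t| ≤ (x : ℝ) ^ K →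
  ‖∑ z ∈ FF x, (mue z : ℂ) * HX ξ 0 i 0 z * nit t (nn z)‖ ≤ x / Real.log x ^ A

/-- **SGN** (short, medium; hyperbola method).  From RPX, SRF, SIZ.  On `Fd` the sign is `χ₋₄ (nn z)` (`nn z ≡ 1 mod 8`: `+`, `≡ 7`: `-`).  So the sum is `∑_{ab ≤ v} χ₋₄(a) e1 q a · χ₋₄(b) e8 q b`; both functions are periodic modulo `8q` with sum `0` over a period (nonprincipal characters), so their partial sums are at most `8q`.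
Hyperbola method: `≤ 2 · 8q √v + (8q)²`. -/
def SGN_stmt : Prop := ∃ C : ℝ, 0 < C ∧ ∀ q : ℕ, 2 ∣ q → 0 < q → ∀ v : ℕ, ‖∑ z ∈ FF v, I1 q z * ((N8 z).sign : ℂ)‖ ≤ C * (q : ℝ) ^ 3 * √(v : ℝ)

/-! ## M. The Moebius function, the primes, the rough elements -/

/-- **MOX** (medium; as Pool/Agent/*/BP/MMS.lean).  From VGX, CTX, MUX, TRX, UXH, SRF, SGN, MDI.  If `SCj q ξ i₁ κ`: `κ = 0`, `i₁ = 0`, MDI.  Otherwise `NPr q ξ ∨ κ ≠ 0` (if `κ = 0` and `i₁ = 1` then `ξ (-1,0) = -1`; if `i₁ = 0` some `ξ (cj z) ≠ ξ z`).  `Ψ = HX ξ i₁ i κ`, TRX.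
`DtX x A₁ (x^K + L^A₁)`: `Hs` for `cv g₁ g₂ = rf Ψ` by CTX (exponent `K + 1`) and SRF.  `cc2 Ψ z = ξ' z sgn(N8 z)^i₁ exp(2iκ yy z) = HX ξ' 0 i₁ (2κ) z` for odd `z` with `ξ' z = ξ z conj(ξ (cj z))` (`yy (cj z) = - yy z`, `s1 z s1 (cj z) = sgn(N8 z)`, `sgn² = 1`), `IsX q ξ'`, `XInv ξ' 0 (2κ)` (`ξ (3,-1) = conj (ξ (3,1))`).
`Hs x A₁ 0 (cv h₁ h₂)`: CTX if `NPr q ξ' ∨ κ ≠ 0`; otherwise `i₁ = 1` (not `SCj`) and `cc2 Ψ = I1 q · sgn(N8)` on `FF`: SGN.  Then VGX and MUX. -/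
def MOX_stmt : Prop := ∀ A B K : ℕ, ∃ x₀ : ℕ, ∀ x : ℕ, x₀ ≤ x → ∀ q : ℕ, (q : ℝ) ≤ Real.log x ^ B →
  ∀ ξ : ℤ × ℤ → ℂ, IsX q ξ → ∀ i₁ i : ℕ, i₁ ≤ 1 → i ≤ 1 → ∀ κ t : ℝ, XInv ξ i₁ κ → |κ| ≤ (x : ℝ) ^ K → |t| ≤ (x : ℝ) ^ K →
  ‖∑ z ∈ FF x, (mue z : ℂ) * HX ξ i₁ i κ z * nit t (nn z)‖ ≤ x / Real.log x ^ A

/-- **PRX** (medium; the primes).  From MOX, CTX, MUX, TRX, UXH, LGC, SRF.  `Ψ = HX ξ i₁ i κ`, `F = rf Ψ = cv g h` (TRX), `M = rf (mue Ψ) = cv (mg g) (mg h)` (MUX); `F log = LG g h * F` (LGC) and `M * F` = unit give `LG g h = M * (F log)`.  Hyperbola method at `√x`, with the factor `nit t`: `∑_{a ≤ y} M(a) nit t a` and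
`∑_{b ≤ y} F(b) log b nit t b` (CTX and Abel summation) are at most `y/L^(A+6)` for `√x ≤ y ≤ x`, `∑_{a ≤ √x} |M(a)|/a ≤ (1+L)²` (`|M|, |F| ≤ τ`).  The proper prime powers contribute at most `∑_{p^k ≤ x, k ≥ 2} 2 log p ≤ C √x L`, and `LG g h p = log p · rf Ψ p`. -/
def PRX_stmt : Prop := ∀ A B K : ℕ, ∃ x₀ : ℕ, ∀ x : ℕ, x₀ ≤ x → ∀ q : ℕ, (q : ℝ) ≤ Real.log x ^ B →
  ∀ ξ : ℤ × ℤ → ℂ, IsX q ξ → ∀ i₁ i : ℕ, i₁ ≤ 1 → i ≤ 1 → ∀ κ t : ℝ, XInv ξ i₁ κ → NPr q ξ ∨ κ ≠ 0 → |κ| ≤ (x : ℝ) ^ K → |t| ≤ (x : ℝ) ^ K →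
  ‖∑ z ∈ FF x with (nn z).Prime, (Real.log (nn z) : ℂ) * HX ξ i₁ i κ z * nit t (nn z)‖ ≤ x / Real.log x ^ A

/-- the smooth factor -/
def sf (Z : ℝ) (g h : ℕ → ℂ) : ℕ → ℂ := cv (sm Z g) (sm Z h)

/-- **SMF** (medium; as Pool/Agent/helper99/BP/HSF.lean).  `mg (rg Z g) = sm Z g * mg g` (Dirichlet convolution): at `n` it is `g(n) ∑_{ab = n, a Z-smooth} μ(b)`, which is `μ(n) g(n)` if `n` is rough and `0` otherwise (prime powers, multiplicativity); then commutativity and associativity.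
Second claim: `θ = 1/log Z ≤ 1/2`, the sum is at most `(∑_{a smooth} a^(θ-1))² = ∏_{p ≤ Z} (1 - p^(θ-1))^(-2)`, `p^(θ-1) ≤ e/p` and `≤ 3/4`: `≤ exp(2e ∑_{p ≤ Z} 1/p + C)`, `2e < 6`, Mertens. -/
def SMF_stmt : Prop := (∀ (Z : ℝ) (g h : ℕ → ℂ), CM g → CM h → ∀ n : ℕ, 1 ≤ n →
    cv (mg (rg Z g)) (mg (rg Z h)) n = cv (sf Z g h) (cv (mg g) (mg h)) n) ∧
  ∃ C : ℝ, 0 < C ∧ ∀ (Z : ℝ) (g h : ℕ → ℂ), 8 ≤ Z → CM g → CM h → ∀ E : ℕ,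
    ∑ e ∈ Ioc 0 E, ‖sf Z g h e‖ * (e : ℝ) ^ (1 / Real.log Z) / e ≤ C * (1 + Real.log Z) ^ 6

/-- **PSX** (short, medium; polynomials with logarithmic saving).  From MOX, PRX, CTX, SRF, FFC.  `pol f e t = ∑_{z ∈ FF (2^(e+1) - 1)} - ∑_{z ∈ FF (2^e - 1)}`, for `wM V`, `wP V` cut at `V`; each partial sum at a point `u ≥ x^(ε₀)/2` by MOX, PRX (at the point `u`: `log u ≥ ε₀ L/2`, `q ≤ L^B ≤ (log u)^(B+1)`, `|κ|, |t| ≤ x^K ≤ u^(K')`), CTX at the point `x` with `K`.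
The third: Abel summation with the weight `log n ≤ 5L`. -/
def PSX_stmt : Prop := ∀ (A B K : ℕ) (ε₀ : ℝ), 0 < ε₀ → ∃ x₀ : ℕ, ∀ x : ℕ, x₀ ≤ x → ∀ q : ℕ, (q : ℝ) ≤ Real.log x ^ B →
  ∀ ξ : ℤ × ℤ → ℂ, IsX q ξ → ∀ i₁ i : ℕ, i₁ ≤ 1 → i ≤ 1 → ∀ κ t : ℝ, XInv ξ i₁ κ → |κ| ≤ (x : ℝ) ^ K → |t| ≤ (x : ℝ) ^ K →
  ∀ V e : ℕ, (x : ℝ) ^ ε₀ ≤ 2 ^ e → (2 : ℝ) ^ e ≤ (x : ℝ) ^ 4 →
  ‖pol (fun z => wM V z * HX ξ i₁ i κ z) e t‖ ≤ (2 : ℝ) ^ e / Real.log x ^ A ∧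
  (NPr q ξ ∨ κ ≠ 0 → ‖pol (fun z => HX ξ i₁ i κ z) e t‖ ≤ (2 : ℝ) ^ e / Real.log x ^ A ∧
    ‖pol (fun z => (Real.log (nn z) : ℂ) * HX ξ i₁ i κ z) e t‖ ≤ (2 : ℝ) ^ e / Real.log x ^ A ∧
    ‖pol (fun z => wP V z * HX ξ i₁ i κ z) e t‖ ≤ (2 : ℝ) ^ e / Real.log x ^ A)

/-- **PSR** (medium; the rough Moebius function).  From MOX, SMF, MUX, TRX, UXH, SRF.  `Ψ = HX ξ i₁ i κ`, `rf Ψ = cv g h`, `rf (mue Ψ) = cv (mg g) (mg h) =: M` (`MUX`), `rf (wR Z V Ψ) n = [n ≤ V] cv (mg (rg Z g)) (mg (rg Z h)) n` (the divisors of a rough number are rough).  `∑_{n ≤ u} cv (mg (rg g)) (mg (rg h)) n nit t n = ∑_{b ≤ u} sf(b) nit t b S(⌊u/b⌋)` (SMF),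
`S(y) = ∑_{a ≤ y} M(a) nit t a`.  `u ≥ x^(ε₀)/2`.  `⌊u/b⌋ ≥ x^(ε₀/3)`: MOX at the point `⌊u/b⌋`, `|S| ≤ (u/b)/L^(A+8)`, `∑ |sf(b)|/b ≤ C (1 + log Z)^6`.  Other `b` (`b ≥ x^(ε₀/2)`): `|S(y)| ≤ y (1 + log y)`, `∑_{b ≥ x^(ε₀/2)} |sf(b)|/b ≤ x^(-ε₀/(2 log Z)) C (1 + log Z)^6`, `log Z ≤ C₀ log L`: `x^(ε₀/(2 log Z)) ≥ exp(ε₀ L/(2 C₀ log L)) ≥ L^(A+9)`. -/
def PSR_stmt : Prop := ∀ (A B K C₀ : ℕ) (ε₀ : ℝ), 0 < ε₀ → ∃ x₀ : ℕ, ∀ x : ℕ, x₀ ≤ x → ∀ q : ℕ, (q : ℝ) ≤ Real.log x ^ B →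
  ∀ ξ : ℤ × ℤ → ℂ, IsX q ξ → ∀ i₁ i : ℕ, i₁ ≤ 1 → i ≤ 1 → ∀ κ t : ℝ, XInv ξ i₁ κ → |κ| ≤ (x : ℝ) ^ K → |t| ≤ (x : ℝ) ^ K →
  ∀ Z : ℝ, 8 ≤ Z → Z ≤ Real.log x ^ C₀ → ∀ V e : ℕ, (x : ℝ) ^ ε₀ ≤ 2 ^ e → (2 : ℝ) ^ e ≤ (x : ℝ) ^ 4 →
  ‖pol (fun z => wR Z V z * HX ξ i₁ i κ z) e t‖ ≤ (2 : ℝ) ^ e / Real.log x ^ A

end Pool.Agent.YB
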