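import Pool.Agent.helper36.YB.Spec

/-! Row MDI of project yb (MP_ad8ced_nt) -/

set_option autoImplicit false

open Finset
open Pool.Agent.FI Pool.Agent.HK Pool.Agent.BP
open Pool.Agent.CH (nit rgh ll2)
open Pool.Agent.SK (tr0 Th)

noncomputable section

namespace Pool.Agent.YB

private theorem MDI_per {Q : ℕ} {F : ℕ → ℂ} (hF : ∀ n, F (n + Q) = F n) (n : ℕ) : F (n % Q) = F n := by
  have h1 : ∀ k m : ℕ, F (m + k * Q) = F m := by
    intro k
    induction k with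
    | zero => intro m; simp
    | succ k ih =>
      intro m
      have : m + (k + 1) * Q = (m + k * Q) + Q := by ring
      rw [this, hF, ih]
  have h2 := h1 (n / Q) (n % Q)
  rw [← h2]
  congr 1
  have := Nat.mod_add_div n Q
  rw [mul_comm]
  exact this

/-- the coefficients -/
def MDI_c (Q : ℕ) [NeZero Q] (F : ℕ → ℂ) (χ : DirichletCharacter ℂ Q) : ℂ :=
  ((Nat.totient Q : ℕ) : ℂ)⁻¹ * ∑ u : (ZMod Q)ˣ, F ((u : ZMod Q).val) * χ ((u : ZMod Q)⁻¹)

private theorem MDI_cle (Q : ℕ) [NeZero Q] (F : ℕ → ℂ) (hF1 : ∀ n, ‖F n‖ ≤ 1) (χ : DirichletCharacter ℂ Q) :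
    ‖MDI_c Q F χ‖ ≤ 1 := by
  unfold MDI_c
  have hpos : (0 : ℝ) < ((Nat.totient Q : ℕ) : ℝ) := by
    exact_mod_cast Nat.totient_pos.2 (Nat.pos_of_ne_zero (NeZero.ne Q))
  rw [norm_mul, norm_inv, Complex.norm_natCast]
  have h1 : ‖∑ u : (ZMod Q)ˣ, F ((u : ZMod Q).val) * χ ((u : ZMod Q)⁻¹)‖ ≤ ((Nat.totient Q : ℕ) : ℝ) := by
    refine (norm_sum_le _ _).trans ?_
    refine (Finset.sum_le_sum (g := fun _ => (1 : ℝ)) ?_).trans ?_
    · intro u _
      rw [norm_mul]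
      calc _ ≤ 1 * 1 := mul_le_mul (hF1 _) (DirichletCharacter.norm_le_one χ _) (norm_nonneg _) zero_le_one
        _ = 1 := one_mul 1
    · rw [Finset.sum_const, nsmul_eq_mul, mul_one, Finset.card_univ, ZMod.card_units_eq_totient]
  calc _ ≤ (((Nat.totient Q : ℕ) : ℝ))⁻¹ * ((Nat.totient Q : ℕ) : ℝ) :=
        mul_le_mul_of_nonneg_left h1 (by positivity)
    _ = 1 := inv_mul_cancel₀ hpos.ne'

private theorem MDI_exp (Q : ℕ) [NeZero Q] (F : ℕ → ℂ) (hF : ∀ n, F (n + Q) = F n) (hF0 : ∀ n, ¬ Nat.Coprime n Q → F n = 0)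
    (n : ℕ) : F n = ∑ χ : DirichletCharacter ℂ Q, MDI_c Q F χ * χ (n : ZMod Q) := by
  classical
  by_cases hn : Nat.Coprime n Q
  · have hu : IsUnit (n : ZMod Q) := (ZMod.isUnit_iff_coprime n Q).2 hn
    unfold MDI_c
    have e1 : ∀ χ : DirichletCharacter ℂ Q, ((Nat.totient Q : ℕ) : ℂ)⁻¹ * (∑ u : (ZMod Q)ˣ, F ((u : ZMod Q).val) * χ ((u : ZMod Q)⁻¹)) * χ (n : ZMod Q) =
        ((Nat.totient Q : ℕ) : ℂ)⁻¹ * ∑ u : (ZMod Q)ˣ, F ((u : ZMod Q).val) * (χ ((u : ZMod Q)⁻¹) * χ (n : ZMod Q)) := by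
      intro χ
      rw [mul_assoc, Finset.sum_mul]
      congr 1
      refine Finset.sum_congr rfl fun u _ => ?_
      ring
    rw [Finset.sum_congr rfl fun χ _ => e1 χ, ← Finset.mul_sum, Finset.sum_comm]
    have e2 : ∀ u : (ZMod Q)ˣ, ∑ χ : DirichletCharacter ℂ Q, F ((u : ZMod Q).val) * (χ ((u : ZMod Q)⁻¹) * χ (n : ZMod Q)) =
        if u = hu.unit then F n * ((Nat.totient Q : ℕ) : ℂ) else 0 := by
      intro u
      rw [← Finset.mul_sum, DirichletCharacter.sum_char_inv_mul_char_eq ℂ u.isUnit]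
      by_cases h : u = hu.unit
      · have h1 : (u : ZMod Q) = (n : ZMod Q) := by rw [h]; exact hu.unit_spec
        rw [if_pos h1, if_pos h, h1, ZMod.val_natCast, MDI_per hF]
      · have h1 : ¬ (u : ZMod Q) = (n : ZMod Q) := by
          intro h2
          apply h
          apply Units.ext
          rw [h2]
          exact hu.unit_spec.symm
        rw [if_neg h1, if_neg h, mul_zero]
    rw [Finset.sum_congr rfl fun u _ => e2 u, Finset.sum_ite_eq' Finset.univ hu.unit, if_pos (Finset.mem_univ _)]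
    have hpos : ((Nat.totient Q : ℕ) : ℂ) ≠ 0 := by
      exact_mod_cast (Nat.totient_pos.2 (Nat.pos_of_ne_zero (NeZero.ne Q))).ne'
    field_simp
  · rw [hF0 n hn]
    symm
    refine Finset.sum_eq_zero fun χ _ => ?_
    rw [MulChar.map_nonunit χ (fun h => hn ((ZMod.isUnit_iff_coprime n Q).1 h)), mul_zero]

private theorem MDI_card (Q : ℕ) [NeZero Q] : (Fintype.card (DirichletCharacter ℂ Q)) ≤ Q := by
  rw [← Nat.card_eq_fintype_card, DirichletCharacter.card_eq_totient_of_hasEnoughRootsOfUnity ℂ Q]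
  exact Nat.totient_le Q

private theorem MDI_cv {q Q : ℕ} (hqQ : q ∣ Q) (χ : DirichletCharacter ℂ Q) (n : ℕ) :
    χ (n : ZMod Q) * cv (mg (e1 q)) (mg (e8 q)) n = cv (mg (fun n => χ (n : ZMod Q))) (mg (fun n => c8 n * χ (n : ZMod Q))) n := by
  have hz : ∀ a : ℕ, ¬ Nat.Coprime a q → χ (a : ZMod Q) = 0 := by
    intro a ha
    refine MulChar.map_nonunit χ (fun h => ha ?_)
    exact Nat.Coprime.coprime_dvd_right hqQ ((ZMod.isUnit_iff_coprime a Q).1 h)
  unfold cv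
  rw [Finset.mul_sum]
  refine Finset.sum_congr rfl fun d hd => ?_
  have hn : d.1 * d.2 = n := (Nat.mem_divisorsAntidiagonal.1 hd).1
  rw [← hn]
  unfold mg e1 e8
  push_cast
  rw [map_mul]
  by_cases h1 : Nat.Coprime d.1 q
  · by_cases h2 : Nat.Coprime d.2 q
    · rw [if_pos h1, if_pos h2]
      ring
    · rw [if_neg h2, hz d.2 h2]
      ring
  · rw [if_neg h1, hz d.1 h1]
    ring

private theorem MDI_rf (s1 : ∀ (F : ℤ × ℤ → ℂ) (y : ℕ), ∑ n ∈ Ioc 0 y, rf F n = ∑ z ∈ FF y, F z)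
    (F : ℤ × ℤ → ℂ) (τ : ℝ) (y : ℕ) :
    ∑ n ∈ Ioc 0 y, rf F n * nit τ n = ∑ z ∈ FF y, F z * nit τ (nn z) := by
  rw [← s1 (fun z => F z * nit τ (nn z)) y]
  refine Finset.sum_congr rfl fun n _ => ?_
  unfold rf
  rw [Finset.sum_mul]
  refine Finset.sum_congr rfl fun z hz => ?_
  beta_reduce
  rw [(Finset.mem_filter.1 hz).2]

theorem MDI (hFNC : FNC_stmt) (hMDD : MDD_stmt) (hMUX : MUX_stmt) (hRPX : RPX_stmt) (hSRF : SRF_stmt) (hSIZ : SIZ_stmt) : MDI_stmt := by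
  classical
  intro A B K
  obtain ⟨x₁, hM⟩ := hMDD (A + B + 1) (B + 1) K
  obtain ⟨s1', -, -⟩ := hSRF
  refine ⟨⌈max x₁ (Real.exp 16)⌉₊, ?_⟩
  intro x hx q hqB ξ hξ i t hU hSC ht
  have hxm : max x₁ (Real.exp 16) ≤ (x : ℝ) := (Nat.le_ceil _).trans (by exact_mod_cast hx)
  have hx1 : x₁ ≤ (x : ℝ) := (le_max_left _ _).trans hxm
  have hx2 : Real.exp 16 ≤ (x : ℝ) := (le_max_right _ _).trans hxm
  have hx0 : (0 : ℝ) < x := lt_of_lt_of_le (Real.exp_pos _) hx2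
  have hL : 16 ≤ Real.log x := (Real.le_log_iff_exp_le hx0).2 hx2
  have hL0 : 0 < Real.log (x : ℝ) := by linarith
  have h2q : 2 ∣ q := hξ.1
  have hq0 : 0 < q := hξ.2.1
  obtain ⟨F, hF, hF1, hF0, hFd⟩ := hFNC q ξ i hξ hU hSC
  obtain ⟨hI, hc1, hc8, hrI⟩ := hRPX q h2q hq0
  have hQ0 : 0 < 16 * q := by omega
  have : NeZero (16 * q) := ⟨hQ0.ne'⟩
  have hcop : ∀ n : ℕ, Nat.Coprime n q → Nat.Coprime n (16 * q) := by
    intro n hn
    have h2 : Nat.Coprime n 2 := Nat.Coprime.coprime_dvd_right h2q hn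
    have : Nat.Coprime n (2 ^ 4) := Nat.Coprime.pow_right 4 h2
    exact Nat.Coprime.mul_right this hn
  have hF0' : ∀ n, ¬ Nat.Coprime n (16 * q) → F n = 0 := fun n hn => hF0 n fun h => hn (hcop n h)
  have hexp := MDI_exp (16 * q) F hF hF0'
  have hn : ∀ n : ℕ, 1 ≤ n → rf (fun z => (mue z : ℂ) * HX ξ 0 i 0 z) n = F n * cv (mg (e1 q)) (mg (e8 q)) n := by
    intro n hn
    rw [← hMUX q (I1 q) h2q hI (e1 q) (e8 q) hc1 hc8 hrI n hn]
    unfold rf
    rw [Finset.mul_sum]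
    refine Finset.sum_congr rfl fun z hz => ?_
    have hzn : nn z = n := (Finset.mem_filter.1 hz).2
    have hzF : Fd z := by
      have := (Finset.mem_filter.1 hz).1
      unfold FF at this
      exact (Finset.mem_filter.1 this).2.1
    beta_reduce
    rw [hFd z hzF, hzn]
    unfold I1
    rw [hzn]
    by_cases hc : Nat.Coprime n q
    · rw [if_pos hc]
      ring
    · rw [if_neg hc, hF0 n hc]
      ring
  have hsum : ∑ z ∈ FF x, (mue z : ℂ) * HX ξ 0 i 0 z * nit t (nn z) =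
      ∑ χ : DirichletCharacter ℂ (16 * q), MDI_c (16 * q) F χ *
        ∑ n ∈ Ioc 0 x, cv (mg (fun n => χ (n : ZMod (16 * q)))) (mg (fun n => c8 n * χ (n : ZMod (16 * q)))) n * nit t n := by
    rw [← MDI_rf s1' (fun z => (mue z : ℂ) * HX ξ 0 i 0 z) t x]
    have e1 : ∀ n ∈ Ioc 0 x, rf (fun z => (mue z : ℂ) * HX ξ 0 i 0 z) n * nit t n =
        ∑ χ : DirichletCharacter ℂ (16 * q), MDI_c (16 * q) F χ *
          (cv (mg (fun n => χ (n : ZMod (16 * q)))) (mg (fun n => c8 n * χ (n : ZMod (16 * q)))) n * nit t n) := by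
      intro n hnm
      rw [hn n (Finset.mem_Ioc.1 hnm).1, hexp n, Finset.sum_mul, Finset.sum_mul]
      refine Finset.sum_congr rfl fun χ _ => ?_
      rw [← MDI_cv (Dvd.intro_left 16 rfl) χ n]
      ring
    rw [Finset.sum_congr rfl e1, Finset.sum_comm]
    refine Finset.sum_congr rfl fun χ _ => ?_
    rw [Finset.mul_sum]
  rw [hsum]
  have hQB : ((16 * q : ℕ) : ℝ) ≤ Real.log x ^ (B + 1) := by
    push_cast
    rw [pow_succ, mul_comm]
    exact mul_le_mul hqB hL (by norm_num) (by positivity)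
  refine (norm_sum_le _ _).trans ?_
  have hb : ∀ χ ∈ (Finset.univ : Finset (DirichletCharacter ℂ (16 * q))), ‖MDI_c (16 * q) F χ *
        ∑ n ∈ Ioc 0 x, cv (mg (fun n => χ (n : ZMod (16 * q)))) (mg (fun n => c8 n * χ (n : ZMod (16 * q)))) n * nit t n‖ ≤
      x / Real.log x ^ (A + B + 1) := by
    intro χ _
    rw [norm_mul]
    have h1 := hM (x : ℝ) hx1 (16 * q) (by omega) hQB χ t ht
    rw [Nat.floor_natCast] at h1
    calc _ ≤ 1 * (x / Real.log x ^ (A + B + 1)) :=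
          mul_le_mul (MDI_cle (16 * q) F hF1 χ) h1 (norm_nonneg _) zero_le_one
      _ = _ := one_mul _
  refine (Finset.sum_le_sum hb).trans ?_
  rw [Finset.sum_const, nsmul_eq_mul, Finset.card_univ]
  have hcard : ((Fintype.card (DirichletCharacter ℂ (16 * q)) : ℕ) : ℝ) ≤ Real.log x ^ (B + 1) :=
    le_trans (by exact_mod_cast MDI_card (16 * q)) hQB
  calc _ ≤ Real.log x ^ (B + 1) * (x / Real.log x ^ (A + B + 1)) :=
        mul_le_mul_of_nonneg_right hcard (by positivity)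
    _ = x / Real.log x ^ A := by
        have : A + B + 1 = A + (B + 1) := by ring
        rw [this, pow_add (Real.log (x : ℝ)) A (B + 1)]
        have h1 : Real.log (x : ℝ) ^ (B + 1) ≠ 0 := by positivity
        have h2 : Real.log (x : ℝ) ^ A ≠ 0 := by positivity
        rw [mul_div_assoc', div_eq_div_iff (mul_ne_zero h2 h1) h2]
        ring

end Pool.Agent.YB
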