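import Pool.Agent.helper36.YB.Spec

/-! Row MOX of project yb (MP_ad8ced_nt) -/

set_option autoImplicit false

open Finset
open Pool.Agent.FI Pool.Agent.HK Pool.Agent.BP
open Pool.Agent.CH (nit rgh ll2)
open Pool.Agent.SK (tr0 Th)

noncomputable section

namespace Pool.Agent.YB

private theorem MOX_log (n : ℕ) : ∃ x₁ : ℝ, ∀ x : ℝ, x₁ ≤ x → Real.log x ^ n ≤ x := by
  have h1 := isLittleO_log_rpow_rpow_atTop (n : ℝ) (by norm_num : (0 : ℝ) < 1)
  have h2 := h1.def (by norm_num : (0 : ℝ) < 1)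
  obtain ⟨a, ha⟩ := Filter.eventually_atTop.1 h2
  refine ⟨max a 1, fun x hx => ?_⟩
  have h3 := ha x ((le_max_left _ _).trans hx)
  have hx1 : 1 ≤ x := (le_max_right _ _).trans hx
  have hx0 : 0 ≤ x := by linarith
  rw [Real.rpow_natCast, one_mul, Real.norm_eq_abs, Real.norm_eq_abs,
    abs_of_nonneg (Real.rpow_nonneg hx0 _), Real.rpow_one] at h3
  exact (le_abs_self _).trans h3

private theorem MOX_exp (C : ℝ) (hC : 0 < C) (n : ℕ) : ∃ x₁ : ℝ, ∀ x : ℝ, x₁ ≤ x →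
    1 ≤ Real.log x ∧ C * Real.log x ^ n ≤ Real.exp (CH.dl x / 2) := by
  have h1 := isLittleO_pow_exp_pos_mul_atTop (2 * n) (show (0 : ℝ) < 1 / 2 by norm_num)
  have h2 := h1.def (show (0 : ℝ) < 1 / C by positivity)
  have ht : Filter.Tendsto CH.dl Filter.atTop Filter.atTop :=
    (tendsto_rpow_atTop (show (0 : ℝ) < 19 / 20 by norm_num)).comp Real.tendsto_log_atTop
  obtain ⟨a, ha⟩ := Filter.eventually_atTop.1 h2
  obtain ⟨b, hb⟩ := Filter.eventually_atTop.1 (ht.eventually_ge_atTop a)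
  refine ⟨max b (Real.exp 1), fun x hx => ?_⟩
  have hxb : b ≤ x := (le_max_left _ _).trans hx
  have hxe : Real.exp 1 ≤ x := (le_max_right _ _).trans hx
  have hx0 : 0 < x := lt_of_lt_of_le (Real.exp_pos 1) hxe
  have hL1 : 1 ≤ Real.log x := (Real.le_log_iff_exp_le hx0).2 hxe
  refine ⟨hL1, ?_⟩
  have h3 := ha (CH.dl x) (hb x hxb)
  have hd : Real.log x ≤ CH.dl x ^ 2 := by
    unfold CH.dl
    rw [← Real.rpow_natCast, ← Real.rpow_mul (by linarith)]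
    calc Real.log x = Real.log x ^ (1 : ℝ) := (Real.rpow_one _).symm
      _ ≤ _ := Real.rpow_le_rpow_of_exponent_le hL1 (by norm_num)
  have hdl0 : 0 ≤ CH.dl x := Real.rpow_nonneg (by linarith) _
  rw [Real.norm_of_nonneg (by positivity), Real.norm_of_nonneg (Real.exp_pos _).le] at h3
  have h4 : Real.log x ^ n ≤ CH.dl x ^ (2 * n) := by
    rw [pow_mul]
    exact pow_le_pow_left₀ (by linarith) hd n
  calc C * Real.log x ^ n ≤ C * (1 / C * Real.exp (1 / 2 * CH.dl x)) :=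
        mul_le_mul_of_nonneg_left (h4.trans h3) hC.le
    _ = Real.exp (CH.dl x / 2) := by
        rw [← mul_assoc, mul_one_div_cancel hC.ne', one_mul]
        congr 1
        ring

private theorem MOX_N8 (z : ℤ × ℤ) (hz : z.1 % 2 = 1) : N8 z ≠ 0 := by
  obtain ⟨k, hk⟩ : ∃ k, z.1 = 2 * k + 1 := ⟨z.1 / 2, by omega⟩
  unfold N8
  rw [hk]
  intro h
  have h1 : 2 * (2 * k ^ 2 + 2 * k - 4 * z.2 ^ 2) + 1 = 0 := by linarith
  omega

private theorem MOX_N8c (z : ℤ × ℤ) : N8 (cj z) = N8 z := by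
  unfold N8 cj
  ring

private theorem MOX_nnc (z : ℤ × ℤ) : nn (cj z) = nn z := by
  unfold nn
  rw [MOX_N8c]

private theorem MOX_cjm (z w : ℤ × ℤ) : cj (mul8 z w) = mul8 (cj z) (cj w) := by
  unfold cj mul8
  ext
  · simp
  · simp
    ring

private theorem MOX_yyc (z : ℤ × ℤ) : yy (cj z) = - yy z := by
  unfold yy cj
  push_cast
  rw [← Real.log_inv, inv_div]
  congr 2
  · congr 1
    ring
  · congr 1
    ring

private theorem MOX_s8 : √(8 : ℝ) * √8 = 8 := Real.mul_self_sqrt (by norm_num)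

private theorem MOX_ss (z : ℤ × ℤ) (hz : z.1 % 2 = 1) : s1 z * s1 (cj z) = (((N8 z).sign : ℤ) : ℂ) := by
  have hn := MOX_N8 z hz
  have hr : ((z.1 : ℝ) + z.2 * √8) * ((z.1 : ℝ) - z.2 * √8) = ((N8 z : ℤ) : ℝ) := by
    unfold N8
    push_cast
    linear_combination (-(z.2 : ℝ) ^ 2) * MOX_s8
  have hc : ((cj z).1 : ℝ) + (cj z).2 * √8 = (z.1 : ℝ) - z.2 * √8 := by
    unfold cj
    push_cast
    ring
  unfold s1
  rw [hc]
  rcases lt_or_gt_of_ne hn with h | h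
  · have hneg : ((N8 z : ℤ) : ℝ) < 0 := by exact_mod_cast h
    rw [Int.sign_eq_neg_one_of_neg h]
    rw [← hr] at hneg
    rcases mul_neg_iff.1 hneg with ⟨h1, h2⟩ | ⟨h1, h2⟩
    · rw [if_pos h1, if_neg (by linarith)]
      norm_num
    · rw [if_neg (by linarith), if_pos h2]
      norm_num
  · have hpos : 0 < ((N8 z : ℤ) : ℝ) := by exact_mod_cast h
    rw [Int.sign_eq_one_of_pos h]
    rw [← hr] at hpos
    rcases mul_pos_iff.1 hpos with ⟨h1, h2⟩ | ⟨h1, h2⟩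
    · rw [if_pos h1, if_pos h2]
      norm_num
    · rw [if_neg (by linarith), if_neg (by linarith)]
      norm_num

private theorem MOX_s1c (z : ℤ × ℤ) : (starRingEnd ℂ) (s1 z) = s1 z := by
  unfold s1
  split_ifs
  · simp
  · simp

/-- the character `ξ(z) conj ξ(z')` -/
def MOX_x (ξ : ℤ × ℤ → ℂ) (z : ℤ × ℤ) : ℂ := ξ z * (starRingEnd ℂ) (ξ (cj z))

private theorem MOX_cc (ξ : ℤ × ℤ → ℂ) (i₁ i : ℕ) (κ : ℝ) (z : ℤ × ℤ) (hz : z.1 % 2 = 1) :
    cc2 (HX ξ i₁ i κ) z = HX (MOX_x ξ) 0 i₁ (2 * κ) z := by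
  have hs : (((N8 z).sign : ℤ) : ℂ) ^ 2 = 1 := by
    rcases lt_or_gt_of_ne (MOX_N8 z hz) with h | h
    · rw [Int.sign_eq_neg_one_of_neg h]
      norm_num
    · rw [Int.sign_eq_one_of_pos h]
      norm_num
  have hsi : (((N8 z).sign : ℤ) : ℂ) ^ i * (((N8 z).sign : ℤ) : ℂ) ^ i = 1 := by
    rw [← pow_add, ← two_mul, pow_mul, hs, one_pow]
  have he : Complex.exp ((κ : ℂ) * (yy z : ℂ) * Complex.I) *
      (starRingEnd ℂ) (Complex.exp ((κ : ℂ) * ((yy (cj z) : ℝ) : ℂ) * Complex.I)) =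
      Complex.exp (((2 * κ : ℝ) : ℂ) * (yy z : ℂ) * Complex.I) := by
    rw [← Complex.exp_conj, ← Complex.exp_add, MOX_yyc]
    congr 1
    simp only [map_mul, Complex.conj_ofReal, Complex.conj_I]
    push_cast
    ring
  have hc : (starRingEnd ℂ) ((((N8 z).sign : ℤ) : ℂ)) = (((N8 z).sign : ℤ) : ℂ) := map_intCast (starRingEnd ℂ) _
  have hp : (((N8 z).sign : ℤ) : ℂ) ^ i₁ = s1 z ^ i₁ * s1 (cj z) ^ i₁ := by
    rw [← MOX_ss z hz, mul_pow]
  unfold cc2 HX MOX_x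
  rw [MOX_N8c, map_mul, map_mul, map_mul, map_pow, map_pow, MOX_s1c, hc, pow_zero, mul_one, ← he]
  linear_combination (ξ z * (starRingEnd ℂ) (ξ (cj z)) * (s1 z ^ i₁ * s1 (cj z) ^ i₁) *
    (Complex.exp ((κ : ℂ) * (yy z : ℂ) * Complex.I) *
      (starRingEnd ℂ) (Complex.exp ((κ : ℂ) * ((yy (cj z) : ℝ) : ℂ) * Complex.I)))) * hsi -
    (ξ z * (starRingEnd ℂ) (ξ (cj z)) * (Complex.exp ((κ : ℂ) * (yy z : ℂ) * Complex.I) *
      (starRingEnd ℂ) (Complex.exp ((κ : ℂ) * ((yy (cj z) : ℝ) : ℂ) * Complex.I)))) * hp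

private theorem MOX_rc {q : ℕ} {ξ : ℤ × ℤ → ℂ} (h : IsX q ξ) : IsX q (MOX_x ξ) := by
  obtain ⟨h0, h0', h1, h2, h3, h4⟩ := h
  refine ⟨h0, h0', ?_, ?_, ?_, ?_⟩
  · intro z w
    unfold MOX_x
    rw [MOX_cjm, h1, h1, map_mul]
    ring
  · intro z w hz hw
    unfold MOX_x
    rw [h2 z w hz hw, h2 (cj z) (cj w) hz]
    unfold cj
    change (q : ℤ) ∣ -z.2 - -w.2
    have : -z.2 - -w.2 = -(z.2 - w.2) := by ring
    rw [this]
    exact (dvd_neg).2 hw
  · intro z hz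
    unfold MOX_x
    rw [h3 z hz, zero_mul]
  · intro z hz
    unfold MOX_x
    rw [norm_mul, RCLike.norm_conj, h4 z hz, h4 (cj z) (by rw [MOX_nnc]; exact hz), mul_one]

private theorem MOX_one {q : ℕ} {ξ : ℤ × ℤ → ℂ} (h : IsX q ξ) : ξ (1, 0) = 1 := by
  obtain ⟨h0, h0', h1, h2, h3, h4⟩ := h
  have e := h1 (1, 0) (1, 0)
  have e2 : mul8 (1, 0) (1, 0) = (1, 0) := by
    unfold mul8
    norm_num
  rw [e2] at e
  have hn : ξ (1, 0) ≠ 0 := by
    have := h4 (1, 0) (by unfold nn N8; norm_num)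
    intro h5
    rw [h5, norm_zero] at this
    exact zero_ne_one this
  have e3 : ξ (1, 0) * (ξ (1, 0) - 1) = 0 := by linear_combination -e
  rcases mul_eq_zero.1 e3 with h5 | h5
  · exact absurd h5 hn
  · linear_combination h5

private theorem MOX_ui {q : ℕ} {ξ : ℤ × ℤ → ℂ} {i₁ : ℕ} {κ : ℝ} (hX : IsX q ξ) (h : XInv ξ i₁ κ) :
    XInv (MOX_x ξ) 0 (2 * κ) := by
  obtain ⟨hA, hB⟩ := h
  have h1 := MOX_one hX
  have hX' := hX
  obtain ⟨h0, h0', hm, h2, h3, h4⟩ := hX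
  have hc3 : cj (3, 1) = (3, -1) := rfl
  have hc1 : cj (-1, 0) = (-1, 0) := by unfold cj; norm_num
  have e3 : ξ (3, 1) * ξ (3, -1) = 1 := by
    rw [← hm, ← h1]
    congr 1
  have n3 : ‖ξ (3, 1)‖ = 1 := h4 (3, 1) (by unfold nn N8; norm_num)
  have n1 : ‖ξ (-1, 0)‖ = 1 := h4 (-1, 0) (by unfold nn N8; norm_num)
  have c3 : ξ (3, 1) * (starRingEnd ℂ) (ξ (3, 1)) = 1 := by
    rw [Complex.mul_conj, Complex.normSq_eq_norm_sq, n3]
    norm_num
  have c1 : ξ (-1, 0) * (starRingEnd ℂ) (ξ (-1, 0)) = 1 := by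
    rw [Complex.mul_conj, Complex.normSq_eq_norm_sq, n1]
    norm_num
  have hne : ξ (3, 1) ≠ 0 := by
    intro h5
    rw [h5, norm_zero] at n3
    exact zero_ne_one n3
  have e4 : ξ (3, -1) = (starRingEnd ℂ) (ξ (3, 1)) := by
    apply mul_left_cancel₀ hne
    rw [e3, c3]
  refine ⟨?_, ?_⟩
  · unfold MOX_x
    rw [hc3, e4, Complex.conj_conj]
    have h5 := congrArg (fun w : ℂ => w ^ 2) hA
    simp only [one_pow] at h5
    rw [mul_pow, ← Complex.exp_nat_mul] at h5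
    rw [← h5, pow_two]
    congr 2
    push_cast
    ring
  · unfold MOX_x
    rw [hc1, c1]
    norm_num

private theorem MOX_odd {y : ℕ} {z : ℤ × ℤ} (hz : z ∈ FF y) : z.1 % 2 = 1 := by
  classical
  unfold FF at hz
  exact (Finset.mem_filter.1 hz).2.1.1

private theorem MOX_rf (s1 : ∀ (F : ℤ × ℤ → ℂ) (y : ℕ), ∑ n ∈ Ioc 0 y, rf F n = ∑ z ∈ FF y, F z)
    (F : ℤ × ℤ → ℂ) (τ : ℝ) (y : ℕ) :
    ∑ n ∈ Ioc 0 y, rf F n * nit τ n = ∑ z ∈ FF y, F z * nit τ (nn z) := by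
  rw [← s1 (fun z => F z * nit τ (nn z)) y]
  refine Finset.sum_congr rfl fun n _ => ?_
  unfold rf
  rw [Finset.sum_mul]
  refine Finset.sum_congr rfl fun z hz => ?_
  beta_reduce
  rw [(Finset.mem_filter.1 hz).2]

theorem MOX (hVGX : VGX_stmt) (hCTX : CTX_stmt) (hMUX : MUX_stmt) (hTRX : TRX_stmt) (hUXH : UXH_stmt)
    (hSRF : SRF_stmt) (hSGN : SGN_stmt) (hMDI : MDI_stmt) : MOX_stmt := by
  classical
  intro A B K
  obtain ⟨A₁, xV, hV⟩ := hVGX A
  obtain ⟨xC, hC⟩ := hCTX A₁ B (K + 2)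
  obtain ⟨xL, hL⟩ := MOX_log A₁
  obtain ⟨Cs, hCs, hS⟩ := hSGN
  obtain ⟨xE, hE⟩ := MOX_exp Cs hCs (3 * B + A₁)
  obtain ⟨xD, hD⟩ := hMDI A B K
  obtain ⟨s1', -, -⟩ := hSRF
  refine ⟨max xD ⌈max (max xV xC) (max (max xL xE) 4)⌉₊, ?_⟩
  intro x hx q hqB ξ hξ i₁ i hi₁ hi κ t hU hκ ht
  have hxD : xD ≤ x := (le_max_left _ _).trans hx
  by_cases hSC : SCj q ξ i₁ κ
  · have hSC' := hSC
    obtain ⟨k0, i0, -⟩ := hSC
    subst k0
    subst i0
    exact hD x hxD q hqB ξ hξ i t hU hSC' ht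
  have hxm : max (max xV xC) (max (max xL xE) 4) ≤ (x : ℝ) :=
    (Nat.le_ceil _).trans (by exact_mod_cast (le_max_right _ _).trans hx)
  have hxV : xV ≤ (x : ℝ) := (le_max_left _ _).trans ((le_max_left _ _).trans hxm)
  have hxC : xC ≤ (x : ℝ) := (le_max_right _ _).trans ((le_max_left _ _).trans hxm)
  have hxL : xL ≤ (x : ℝ) := (le_max_left _ _).trans ((le_max_left _ _).trans ((le_max_right _ _).trans hxm))
  have hxE : xE ≤ (x : ℝ) := (le_max_right _ _).trans ((le_max_left _ _).trans ((le_max_right _ _).trans hxm))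
  have hx4 : (4 : ℝ) ≤ (x : ℝ) := (le_max_right _ _).trans ((le_max_right _ _).trans hxm)
  have hx1 : (1 : ℝ) ≤ (x : ℝ) := by linarith
  have hLA := hL (x : ℝ) hxL
  obtain ⟨hL1, hLE⟩ := hE (x : ℝ) hxE
  have hUX := hUXH q ξ i₁ i κ hξ hU
  have h2q : 2 ∣ q := hξ.1
  have hq0 : 0 < q := hξ.2.1
  obtain ⟨k₁, k₂, g₁, g₂, h₁, h₂, ck1, ck2, cg1, cg2, ch1, ch2, htri, hk, hcv⟩ := hTRX q (HX ξ i₁ i κ) h2q hUX
  have hK0 : (0 : ℝ) < (x : ℝ) ^ K := by positivity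
  have hK1 : (x : ℝ) ^ K ≤ (x : ℝ) ^ (K + 1) := pow_le_pow_right₀ hx1 (Nat.le_succ K)
  have hK2 : (x : ℝ) ≤ (x : ℝ) ^ (K + 1) := by
    calc (x : ℝ) = (x : ℝ) ^ 1 := (pow_one _).symm
      _ ≤ _ := pow_le_pow_right₀ hx1 (by omega)
  have hK3 : 4 * (x : ℝ) ^ (K + 1) ≤ (x : ℝ) ^ (K + 2) := by
    have e : (x : ℝ) ^ (K + 2) = (x : ℝ) * (x : ℝ) ^ (K + 1) := by ring
    rw [e]
    exact mul_le_mul_of_nonneg_right hx4 (by positivity)
  have hK4 : 0 ≤ (x : ℝ) ^ (K + 1) := by positivity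
  have hnp : NPr q ξ ∨ κ ≠ 0 := by
    by_contra hcon
    push Not at hcon
    obtain ⟨hc1, hc2⟩ := hcon
    have hpr : ∀ z : ℤ × ℤ, Nat.Coprime (nn z) q → ξ z = 1 := by
      intro z hz
      by_contra h5
      exact hc1 ⟨z, hz, h5⟩
    apply hSC
    refine ⟨hc2, ?_, ?_⟩
    · have h5 := hU.2
      rw [hpr (-1, 0) (by unfold nn N8; norm_num), one_mul] at h5
      interval_cases i₁
      · rfl
      · norm_num at h5
    · intro z hz
      rw [hpr z hz, hpr (cj z) (by rw [MOX_nnc]; exact hz)]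
  have hDt : DtX (x : ℝ) A₁ ((x : ℝ) ^ K + Real.log x ^ A₁) k₁ k₂ g₁ g₂ h₁ h₂ := by
    refine ⟨ck1, ck2, cg1, cg2, ch1, ch2, htri, hk, ?_, ?_⟩
    · intro τ hτ v hv
      have h1 : ∑ n ∈ Ioc 0 v, cv g₁ g₂ n * nit τ n = ∑ n ∈ Ioc 0 v, rf (HX ξ i₁ i κ) n * nit τ n := by
        refine Finset.sum_congr rfl fun n hn => ?_
        rw [(hcv n (Finset.mem_Ioc.1 hn).1).2.1]
      rw [h1, MOX_rf s1']
      exact hC x hxC q hqB ξ hξ i₁ i κ τ hU hnp (by linarith) (by linarith) v hv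
    · intro τ hτ v hv
      have hτ0 : τ = 0 := abs_eq_zero.1 (le_antisymm hτ (abs_nonneg _))
      have h1 : ∑ n ∈ Ioc 0 v, cv h₁ h₂ n * nit τ n =
          ∑ n ∈ Ioc 0 v, rf (cc2 (HX ξ i₁ i κ)) n * nit τ n := by
        refine Finset.sum_congr rfl fun n hn => ?_
        rw [(hcv n (Finset.mem_Ioc.1 hn).1).2.2]
      rw [h1, MOX_rf s1']
      have h2 : ∑ z ∈ FF v, cc2 (HX ξ i₁ i κ) z * nit τ (nn z) =
          ∑ z ∈ FF v, HX (MOX_x ξ) 0 i₁ (2 * κ) z * nit τ (nn z) :=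
        Finset.sum_congr rfl fun z hz => by rw [MOX_cc ξ i₁ i κ z (MOX_odd hz)]
      rw [h2]
      by_cases hnp2 : NPr q (MOX_x ξ) ∨ 2 * κ ≠ 0
      · have h3 : |2 * κ| ≤ (x : ℝ) ^ (K + 2) := by
          rw [abs_mul, abs_two]
          linarith
        exact hC x hxC q hqB (MOX_x ξ) (MOX_rc hξ) 0 i₁ (2 * κ) τ (MOX_ui hξ hU) hnp2 h3
          (by rw [hτ0, abs_zero]; positivity) v hv
      · push Not at hnp2
        obtain ⟨hn1, hn2⟩ := hnp2
        have hκ0 : κ = 0 := by linarith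
        have hpr : ∀ z : ℤ × ℤ, Nat.Coprime (nn z) q → MOX_x ξ z = 1 := by
          intro z hz
          by_contra h5
          exact hn1 ⟨z, hz, h5⟩
        have hi1 : i₁ = 1 := by
          by_contra h5
          have hi0 : i₁ = 0 := by omega
          apply hSC
          refine ⟨hκ0, hi0, ?_⟩
          intro z hz
          have h6 := hpr z hz
          unfold MOX_x at h6
          have n1 : ‖ξ (cj z)‖ = 1 := hξ.2.2.2.2.2 (cj z) (by rw [MOX_nnc]; exact hz)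
          have c1 : ξ (cj z) * (starRingEnd ℂ) (ξ (cj z)) = 1 := by
            rw [Complex.mul_conj, Complex.normSq_eq_norm_sq, n1]
            norm_num
          have hne : (starRingEnd ℂ) (ξ (cj z)) ≠ 0 := by
            intro h7
            rw [h7, mul_zero] at c1
            exact zero_ne_one c1
          apply mul_right_cancel₀ hne
          rw [c1, h6]
        have h4 : ∑ z ∈ FF v, HX (MOX_x ξ) 0 i₁ (2 * κ) z * nit τ (nn z) =
            ∑ z ∈ FF v, I1 q z * (((N8 z).sign : ℤ) : ℂ) := by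
          refine Finset.sum_congr rfl fun z hz => ?_
          have hnit : nit τ (nn z) = 1 := by
            unfold nit
            rw [hτ0]
            simp
          rw [hnit, mul_one]
          unfold HX I1
          rw [hi1, hκ0]
          simp only [pow_zero, pow_one, mul_one, mul_zero, Complex.ofReal_zero, zero_mul, Complex.exp_zero]
          by_cases hz2 : Nat.Coprime (nn z) q
          · rw [if_pos hz2, hpr z hz2]
          · rw [if_neg hz2, (MOX_rc hξ).2.2.2.2.1 z hz2]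
        rw [h4]
        refine (hS q h2q hq0 v).trans ?_
        have hq3 : (q : ℝ) ^ 3 ≤ Real.log x ^ (3 * B) := by
          rw [mul_comm, pow_mul]
          exact pow_le_pow_left₀ (Nat.cast_nonneg _) hqB 3
        have hv0 : (0 : ℝ) ≤ v := Nat.cast_nonneg _
        have hsv : Real.exp (CH.dl x / 2) ≤ √(v : ℝ) := by
          apply Real.le_sqrt_of_sq_le
          rw [← Real.exp_nat_mul]
          have : ((2 : ℕ) : ℝ) * (CH.dl (x : ℝ) / 2) = CH.dl x := by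
            push_cast
            ring
          rw [this]
          exact hv
        have hLpos : 0 < Real.log (x : ℝ) := by linarith
        rw [le_div_iff₀ (by positivity)]
        calc Cs * (q : ℝ) ^ 3 * √(v : ℝ) * Real.log x ^ A₁
            ≤ Cs * Real.log x ^ (3 * B) * √(v : ℝ) * Real.log x ^ A₁ := by gcongr
          _ = (Cs * Real.log x ^ (3 * B + A₁)) * √(v : ℝ) := by
              rw [pow_add]
              ring
          _ ≤ √(v : ℝ) * √(v : ℝ) :=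
              mul_le_mul_of_nonneg_right (hLE.trans hsv) (Real.sqrt_nonneg _)
          _ = v := Real.mul_self_sqrt hv0
  have hmain := hV (x : ℝ) hxV ((x : ℝ) ^ K) k₁ k₂ g₁ g₂ h₁ h₂ hDt t ht
  rw [Nat.floor_natCast] at hmain
  have h4 : ∑ z ∈ FF x, (mue z : ℂ) * HX ξ i₁ i κ z * nit t (nn z) =
      ∑ n ∈ Ioc 0 x, cv (mg g₁) (mg g₂) n * nit t n := by
    rw [← MOX_rf s1' (fun z => (mue z : ℂ) * HX ξ i₁ i κ z) t x]
    refine Finset.sum_congr rfl fun n hn => ?_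
    rw [hMUX q (HX ξ i₁ i κ) h2q hUX g₁ g₂ cg1 cg2 (fun n hn => (hcv n hn).2.1) n (Finset.mem_Ioc.1 hn).1]
  rw [h4]
  exact hmain

end Pool.Agent.YB
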