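import Pool.Agent.helper52.EU.SpecK
import Pool.Agent.helper36.YB.Spec

/-! Row SUP of project yb (MP_ad8ced_nt) -/

set_option autoImplicit false

open Finset

noncomputable section

namespace Pool.Agent.EU

open Pool.Agent.FI Pool.Agent.HK Pool.Agent.BP Pool.Agent.YB
open Pool.Agent.CH (nit rgh)

private theorem SUP_mem {y : ℕ} {z : ℤ × ℤ} (hSIZ : SIZ_stmt) : z ∈ FF y ↔ Fd z ∧ nn z ≤ y := by
  classical
  constructor
  · intro h
    unfold FF at h
    exact (Finset.mem_filter.1 h).2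
  · rintro ⟨h1, h2⟩
    have h3 := (hSIZ z h1).2.2.2.1
    unfold FF at h3 ⊢
    rw [Finset.mem_filter] at h3 ⊢
    refine ⟨?_, h1, h2⟩
    have h4 := h3.1
    rw [Finset.mem_product, Finset.mem_Icc, Finset.mem_Icc] at h4 ⊢
    have h5 : ((nn z : ℕ) : ℤ) ≤ ((y : ℕ) : ℤ) := by exact_mod_cast h2
    refine ⟨⟨?_, ?_⟩, ⟨?_, ?_⟩⟩ <;> linarith [h4.1.1, h4.1.2, h4.2.1, h4.2.2]

/-- transfer from `x` to `N ≥ x^ε` -/
private theorem SUP_tr (A B K : ℕ) (ε : ℝ) (hε : 0 < ε) : ∃ (K' : ℕ) (x₁ : ℝ), ∀ x : ℝ, x₁ ≤ x → ∀ N : ℝ, x ^ ε ≤ N →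
    1 ≤ x ∧ 1 ≤ Real.log x ∧ 1 ≤ N ∧ Real.log x ^ B ≤ Real.log N ^ (B + 1) ∧ x ^ K ≤ N ^ K' ∧
    4 * Real.log x ^ A ≤ Real.log N ^ (A + 1) := by
  have ht : Filter.Tendsto (fun x : ℝ => ε * Real.log x) Filter.atTop Filter.atTop :=
    Filter.Tendsto.const_mul_atTop hε Real.tendsto_log_atTop
  obtain ⟨a, ha⟩ := Filter.eventually_atTop.1 (ht.eventually_ge_atTop (max ((1 / ε) ^ B) (4 * (1 / ε) ^ A)))
  refine ⟨⌈(K : ℝ) / ε⌉₊, max a (Real.exp 1), ?_⟩
  intro x hx N hN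
  have hxa : a ≤ x := (le_max_left _ _).trans hx
  have hxe : Real.exp 1 ≤ x := (le_max_right _ _).trans hx
  have hx0 : 0 < x := lt_of_lt_of_le (Real.exp_pos 1) hxe
  have hx1 : 1 ≤ x := (Real.one_le_exp zero_le_one).trans hxe
  have hL1 : 1 ≤ Real.log x := (Real.le_log_iff_exp_le hx0).2 hxe
  have h1 := ha x hxa
  have hxε : 1 ≤ x ^ ε := Real.one_le_rpow hx1 hε.le
  have hN1 : 1 ≤ N := hxε.trans hN
  have hlN : ε * Real.log x ≤ Real.log N := by
    rw [← Real.log_rpow hx0]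
    exact Real.log_le_log (by positivity) hN
  have hb1 : (1 / ε) ^ B ≤ Real.log N := ((le_max_left _ _).trans h1).trans hlN
  have hb2 : 4 * (1 / ε) ^ A ≤ Real.log N := ((le_max_right _ _).trans h1).trans hlN
  have hlN0 : 0 ≤ Real.log N := by
    exact le_trans (by positivity) hb1
  have hlx : Real.log x ≤ 1 / ε * Real.log N := by
    have : Real.log x = 1 / ε * (ε * Real.log x) := by field_simp
    rw [this]
    exact mul_le_mul_of_nonneg_left hlN (by positivity)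
  refine ⟨hx1, hL1, hN1, ?_, ?_, ?_⟩
  · calc Real.log x ^ B ≤ (1 / ε * Real.log N) ^ B := pow_le_pow_left₀ (by linarith) hlx B
      _ = (1 / ε) ^ B * Real.log N ^ B := mul_pow _ _ _
      _ ≤ Real.log N * Real.log N ^ B := mul_le_mul_of_nonneg_right hb1 (by positivity)
      _ = Real.log N ^ (B + 1) := by ring
  · calc x ^ K = x ^ (K : ℝ) := (Real.rpow_natCast x K).symm
      _ ≤ x ^ (ε * (⌈(K : ℝ) / ε⌉₊ : ℝ)) := by
          apply Real.rpow_le_rpow_of_exponent_le hx1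
          have := Nat.le_ceil ((K : ℝ) / ε)
          rw [div_le_iff₀ hε] at this
          linarith
      _ = (x ^ ε) ^ ⌈(K : ℝ) / ε⌉₊ := by
          rw [Real.rpow_mul hx0.le, Real.rpow_natCast]
      _ ≤ N ^ ⌈(K : ℝ) / ε⌉₊ := pow_le_pow_left₀ (by positivity) hN _
  · calc 4 * Real.log x ^ A ≤ 4 * (1 / ε * Real.log N) ^ A := by
          have := pow_le_pow_left₀ (by linarith) hlx A
          linarith
      _ = (4 * (1 / ε) ^ A) * Real.log N ^ A := by rw [mul_pow]; ring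
      _ ≤ Real.log N * Real.log N ^ A := mul_le_mul_of_nonneg_right hb2 (by positivity)
      _ = Real.log N ^ (A + 1) := by ring

theorem SUP (hPRX : PRX_stmt) (hSIZ : SIZ_stmt) : SUP_stmt := by
  classical
  intro A B K ε hε
  obtain ⟨K', x₁, hT⟩ := SUP_tr A B K ε hε
  obtain ⟨N₁, hP⟩ := hPRX (A + 1) (B + 1) K'
  have ht : Filter.Tendsto (fun x : ℝ => x ^ ε) Filter.atTop Filter.atTop := tendsto_rpow_atTop hε
  obtain ⟨a, ha⟩ := Filter.eventually_atTop.1 (ht.eventually_ge_atTop (N₁ : ℝ))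
  refine ⟨⌈max x₁ a⌉₊, ?_⟩
  intro x hx q ξ i₁ i κ t Z N N' hξ hqB hi₁ hi hU hκ ht hnp hZN hN hNN hN2 hN4
  have hxm : max x₁ a ≤ (x : ℝ) := (Nat.le_ceil _).trans (by exact_mod_cast hx)
  have hx1 : x₁ ≤ (x : ℝ) := (le_max_left _ _).trans hxm
  have hxa : a ≤ (x : ℝ) := (le_max_right _ _).trans hxm
  have hNN1 : N₁ ≤ N := by
    have := (ha (x : ℝ) hxa).trans hN
    exact_mod_cast this
  have key : ∀ M : ℕ, N ≤ M → ‖∑ z ∈ FF M with (nn z).Prime, (Real.log (nn z) : ℂ) * HX ξ i₁ i κ z * nit t (nn z)‖ ≤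
      M / (4 * Real.log x ^ A) := by
    intro M hM
    have hMr : (x : ℝ) ^ ε ≤ (M : ℝ) := hN.trans (by exact_mod_cast hM)
    obtain ⟨g1, g2, g3, g4, g5, g6⟩ := hT (x : ℝ) hx1 (M : ℝ) hMr
    refine (hP M (hNN1.trans hM) q (hqB.trans g4) ξ hξ i₁ i hi₁ hi κ t hU hnp.symm (hκ.trans g5) (ht.trans g5)).trans ?_
    refine div_le_div_of_nonneg_left (Nat.cast_nonneg _) (by positivity) g6
  obtain ⟨g1, g2, g3, g4, g5, g6⟩ := hT (x : ℝ) hx1 (N : ℝ) hN
  have hsub : Sh (wl Z) (HX ξ i₁ i κ) t N N' =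
      (∑ z ∈ FF N' with (nn z).Prime, (Real.log (nn z) : ℂ) * HX ξ i₁ i κ z * nit t (nn z)) -
      ∑ z ∈ FF N with (nn z).Prime, (Real.log (nn z) : ℂ) * HX ξ i₁ i κ z * nit t (nn z) := by
    rw [eq_sub_iff_add_eq]
    unfold Sh
    rw [Finset.sum_filter, Finset.sum_filter, Finset.sum_filter]
    have e1 : ∑ z ∈ FF N, (if (nn z).Prime then (Real.log (nn z) : ℂ) * HX ξ i₁ i κ z * nit t (nn z) else 0) =
        ∑ z ∈ FF N', if nn z ≤ N then (if (nn z).Prime then (Real.log (nn z) : ℂ) * HX ξ i₁ i κ z * nit t (nn z) else 0) else 0 := by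
      rw [← Finset.sum_filter (s := FF N') (p := fun z => nn z ≤ N)]
      refine Finset.sum_congr ?_ fun _ _ => rfl
      ext z
      rw [Finset.mem_filter, SUP_mem hSIZ, SUP_mem hSIZ]
      constructor
      · rintro ⟨h1, h2⟩
        exact ⟨⟨h1, h2.trans hNN⟩, h2⟩
      · rintro ⟨⟨h1, _⟩, h2⟩
        exact ⟨h1, h2⟩
    rw [e1, ← Finset.sum_add_distrib]
    refine Finset.sum_congr rfl fun z _ => ?_
    by_cases hz : N < nn z
    · rw [if_pos hz, if_neg (by omega), add_zero]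
      unfold wl
      have hZz : Z < nn z := lt_of_le_of_lt hZN (by exact_mod_cast hz)
      by_cases hp : (nn z).Prime
      · rw [if_pos ⟨hp, hZz⟩, if_pos hp]
        ring
      · rw [if_neg (fun h => hp h.1), if_neg hp, zero_mul]
    · rw [if_neg hz, if_pos (by omega), zero_add]
  rw [hsub]
  refine (norm_sub_le _ _).trans ?_
  have h1 := key N' hNN
  have h2 := key N le_rfl
  have hN2r : (N' : ℝ) ≤ 2 * N := by exact_mod_cast hN2
  have hLA : 0 < Real.log (x : ℝ) ^ A := by positivity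
  have h3 : (N' : ℝ) / (4 * Real.log x ^ A) + N / (4 * Real.log x ^ A) ≤ N / Real.log x ^ A := by
    rw [← add_div, div_le_div_iff₀ (by positivity) hLA]
    nlinarith [Nat.cast_nonneg (α := ℝ) N]
  linarith

end Pool.Agent.EU
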