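import Pool.Agent.helper36.BP.SpecD

/-!
# Project yb (MP_ad8ced_nt: almost all primes `p`), block Y, definitions: the characters of the odd elements of `ℤ[√8]` modulo `q`

Elements are pairs `z = (a, l) ↔ a + l √8`, odd if `a` is odd.  `q` is even, so `gcd(nn z, q) = 1` implies that `z` is odd.  The characters need not be trivial on `ℤ`.
`Ψ = HX ξ i₁ i κ` is multiplicative on the odd elements, and invariant under all units of norm `1` if `XInv ξ i₁ κ` holds.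
On the fundamental domain `Fd` the sign `s1` is `1`, so there `HX ξ i₁ i κ z = ξ z * sgn(N8 z)^i * exp(i κ yy z)`.
-/

set_option autoImplicit false

open Finset
open Pool.Agent.FI Pool.Agent.HK Pool.Agent.BP
open Pool.Agent.CH (nit rgh ll2)
open Pool.Agent.SK (tr0 Th)

noncomputable section

namespace Pool.Agent.YB

/-- a character of the odd elements modulo `q` (`q` even), zero outside -/
def IsX (q : ℕ) (ξ : ℤ × ℤ → ℂ) : Prop :=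
  2 ∣ q ∧ 0 < q ∧ (∀ z w, ξ (mul8 z w) = ξ z * ξ w) ∧
  (∀ z w : ℤ × ℤ, (q : ℤ) ∣ z.1 - w.1 → (q : ℤ) ∣ z.2 - w.2 → ξ z = ξ w) ∧
  (∀ z, ¬ Nat.Coprime (nn z) q → ξ z = 0) ∧
  (∀ z, Nat.Coprime (nn z) q → ‖ξ z‖ = 1)

/-- the sign of `a + l √8` -/
def s1 (z : ℤ × ℤ) : ℂ := if 0 < (z.1 : ℝ) + z.2 * √8 then 1 else -1

/-- the Hecke character `ξ(z) sgn(z)^i₁ sgn(N z)^i |z/z'|^(i κ)` -/
def HX (ξ : ℤ × ℤ → ℂ) (i₁ i : ℕ) (κ : ℝ) (z : ℤ × ℤ) : ℂ :=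
  ξ z * s1 z ^ i₁ * ((N8 z).sign : ℂ) ^ i * Complex.exp (κ * yy z * Complex.I)

/-- invariance under the units `3 + √8` and `-1` -/
def XInv (ξ : ℤ × ℤ → ℂ) (i₁ : ℕ) (κ : ℝ) : Prop :=
  ξ (3, 1) * Complex.exp (κ * (2 * Real.log (3 + √8)) * Complex.I) = 1 ∧ ξ (-1, 0) * (-1) ^ i₁ = 1

/-- not principal -/
def NPr (q : ℕ) (ξ : ℤ × ℤ → ℂ) : Prop := ∃ z : ℤ × ℤ, Nat.Coprime (nn z) q ∧ ξ z ≠ 1

/-- a character of the odd elements modulo units -/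
def UX (q : ℕ) (Ψ : ℤ × ℤ → ℂ) : Prop :=
  (∀ z w : ℤ × ℤ, z.1 % 2 = 1 → w.1 % 2 = 1 → Ψ (mul8 z w) = Ψ z * Ψ w) ∧
  (∀ u : ℤ × ℤ, N8 u = 1 → Ψ u = 1) ∧
  (∀ z : ℤ × ℤ, z.1 % 2 = 1 → ¬ Nat.Coprime (nn z) q → Ψ z = 0) ∧
  (∀ z : ℤ × ℤ, z.1 % 2 = 1 → Nat.Coprime (nn z) q → ‖Ψ z‖ = 1)

/-- `Ψ(z)` times the conjugate of `Ψ(z')` -/
def cc2 (Ψ : ℤ × ℤ → ℂ) (z : ℤ × ℤ) : ℂ := Ψ z * (starRingEnd ℂ) (Ψ (cj z))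

/-- the local conditions: `k` trivial, `h` belongs to `cc2 Ψ`; split, inert, ramified primes -/
def TriX (k₁ k₂ g₁ g₂ h₁ h₂ : ℕ → ℂ) : Prop := ∀ p : ℕ, p.Prime →
  (k₁ p = 1 ∧ k₂ p = 1 ∧ ‖g₁ p‖ = 1 ∧ ‖g₂ p‖ = 1 ∧ h₁ p = g₁ p * (starRingEnd ℂ) (g₂ p) ∧ h₂ p = g₂ p * (starRingEnd ℂ) (g₁ p)) ∨
  (k₁ p = 1 ∧ k₂ p = -1 ∧ ‖g₁ p‖ = 1 ∧ g₂ p = -g₁ p ∧ h₁ p = 1 ∧ h₂ p = -1) ∨
  (k₁ p = 0 ∧ k₂ p = 0 ∧ g₁ p = 0 ∧ g₂ p = 0 ∧ h₁ p = 0 ∧ h₂ p = 0)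

/-- the data of a character with `Ψ(z) ≠ Ψ(z')`, rough version -/
def DtX (x : ℝ) (A : ℕ) (R : ℝ) (k₁ k₂ g₁ g₂ h₁ h₂ : ℕ → ℂ) : Prop :=
  CM k₁ ∧ CM k₂ ∧ CM g₁ ∧ CM g₂ ∧ CM h₁ ∧ CM h₂ ∧ TriX k₁ k₂ g₁ g₂ h₁ h₂ ∧
  (∀ p : ℕ, p.Prime → ‖k₁ p + k₂ p‖ ≤ if p % 8 = 1 ∨ p % 8 = 7 then 2 else 0) ∧
  Hs x A R (cv g₁ g₂) ∧ Hs x A 0 (cv h₁ h₂)

/-- the self-conjugate characters: they come from Dirichlet characters -/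
def SCj (q : ℕ) (ξ : ℤ × ℤ → ℂ) (i₁ : ℕ) (κ : ℝ) : Prop :=
  κ = 0 ∧ i₁ = 0 ∧ ∀ z : ℤ × ℤ, Nat.Coprime (nn z) q → ξ (cj z) = ξ z

/-- the character of `ℚ(√2)` as a complex function -/
def c8 (n : ℕ) : ℂ := ((ch8 n : ℝ) : ℂ)

/-- `n` is `Z`-smooth -/
def smt (Z : ℝ) (n : ℕ) : Prop := ∀ p : ℕ, p.Prime → p ∣ n → (p : ℝ) ≤ Z

open scoped Classical in
/-- `g` on the `Z`-smooth integers -/
def sm (Z : ℝ) (g : ℕ → ℂ) (n : ℕ) : ℂ := if smt Z n then g n else 0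

open scoped Classical in
/-- the weights: the Moebius function of the elements, cut, on the rough elements -/
def wR (Z : ℝ) (V : ℕ) (z : ℤ × ℤ) : ℂ := if rgh Z (nn z) ∧ nn z ≤ V then (mue z : ℂ) else 0

/-- the Moebius function of the elements, cut -/
def wM (V : ℕ) (z : ℤ × ℤ) : ℂ := if nn z ≤ V then (mue z : ℂ) else 0

/-- the prime elements with weight `log`, cut -/
def wP (U : ℕ) (z : ℤ × ℤ) : ℂ := if (nn z).Prime ∧ nn z ≤ U then (Real.log (nn z) : ℂ) else 0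

end Pool.Agent.YB
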